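import Pool.Agent.Y499.RK.Riesz

/-!
The contradiction: the functionals are pointwise bounded but not uniformly bounded.
-/

set_option autoImplicit false
open MeasureTheory Filter Topology Metric

namespace Pool.Agent.Y499.RK

lemma fm_meas (m : ℕ) : Measurable (fm m) :=
  (Complex.measurable_re.comp (unit_meas.pow_const (2 * m))).indicator (ann_meas m)

lemma fm_out {m : ℕ} {z : ℂ} (hz : z ∉ ann m) : fm m z = 0 := Set.indicator_of_notMem hz _

lemma fm_abs (m : ℕ) (hm : 2 ≤ m) (z : ℂ) : |fm m z| ≤ 1 := by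
  by_cases hz : z ∈ ann m
  · unfold fm
    rw [Set.indicator_of_mem hz]
    refine (Complex.abs_re_le_norm _).trans ?_
    rw [norm_pow, norm_div_norm (ann_ne hm hz), one_pow]
  · rw [fm_out hz, abs_zero]
    exact zero_le_one

/-- the densities -/
noncomputable def fL (m0 L : ℕ) (z : ℂ) : ℝ := ∑ i ∈ Finset.range L, fm (mj m0 i) z

lemma fL_meas (m0 L : ℕ) : Measurable (fL m0 L) :=
  Finset.measurable_fun_sum _ fun i _ => fm_meas (mj m0 i)

lemma fL_aux (m0 : ℕ) (hm0 : 2 ≤ m0) (L : ℕ) :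
    (∀ z, |fL m0 L z| ≤ 1) ∧ (∀ z : ℂ, (mj m0 L : ℝ) ≤ ‖z‖ → fL m0 L z = 0) := by
  induction L with
  | zero =>
    refine ⟨fun z => ?_, fun z _ => ?_⟩ <;> simp [fL]
  | succ L ih =>
    obtain ⟨ih1, ih2⟩ := ih
    have hs : ∀ z, fL m0 (L + 1) z = fL m0 L z + fm (mj m0 L) z := by
      intro z
      unfold fL
      rw [Finset.sum_range_succ]
    have hge := hm0.trans (mj_ge m0 L)
    refine ⟨fun z => ?_, fun z hz => ?_⟩
    · rw [hs]
      by_cases h : (mj m0 L : ℝ) ≤ ‖z‖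
      · rw [ih2 z h, zero_add]
        exact fm_abs _ hge z
      · have : z ∉ ann (mj m0 L) := fun h1 => h h1.1
        rw [fm_out this, add_zero]
        exact ih1 z
    · rw [hs]
      have h1 : (mj m0 (L + 1) : ℝ) = 4 * (mj m0 L : ℝ) := by
        rw [mj_succ]
        push_cast
        ring
      rw [h1] at hz
      have h0 : (0 : ℝ) ≤ (mj m0 L : ℝ) := Nat.cast_nonneg _
      have h2 : z ∉ ann (mj m0 L) := by
        intro h
        have h3 : ‖z‖ < 2 * (mj m0 L : ℝ) := h.2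
        linarith
      rw [fm_out h2, add_zero]
      exact ih2 z (by linarith)

lemma unit_diff {z : ℂ} (hz : z ≠ 0) : DifferentiableAt ℝ (fun z : ℂ => z / (‖z‖ : ℂ)) z := by
  have h1 : DifferentiableAt ℝ (fun y : ℂ => ‖y‖) z := differentiableAt_id.norm ℂ hz
  have h2 : DifferentiableAt ℝ (fun y : ℂ => (‖y‖)⁻¹) z := h1.inv (norm_ne_zero_iff.2 hz)
  have h3 : DifferentiableAt ℝ (fun y : ℂ => (‖y‖)⁻¹ • y) z := h2.smul differentiableAt_id
  have h4 : (fun z : ℂ => z / (‖z‖ : ℂ)) = fun y : ℂ => (‖y‖)⁻¹ • y := by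
    funext y
    rw [Complex.real_smul, Complex.ofReal_inv, div_eq_mul_inv, mul_comm]
  rw [h4]
  exact h3

lemma fm_diff {m : ℕ} (hm : 2 ≤ m) {z : ℂ} (h1 : ‖z‖ ≠ m) (h2 : ‖z‖ ≠ 2 * m) :
    DifferentiableAt ℝ (fm m) z := by
  by_cases hz : z ∈ ann m
  · have h3 : (m : ℝ) < ‖z‖ := lt_of_le_of_ne hz.1 (Ne.symm h1)
    have h4 : ‖z‖ < 2 * m := hz.2
    have hev : ∀ᶠ y in 𝓝 z, y ∈ ann m := by
      have h5 : ∀ᶠ y : ℂ in 𝓝 z, (m : ℝ) < ‖y‖ :=
        (continuous_norm.tendsto z).eventually (eventually_gt_nhds h3)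
      have h6 : ∀ᶠ y : ℂ in 𝓝 z, ‖y‖ < 2 * m :=
        (continuous_norm.tendsto z).eventually (eventually_lt_nhds h4)
      filter_upwards [h5, h6] with y h7 h8
      exact ⟨h7.le, h8⟩
    have h5 : DifferentiableAt ℝ (fun z : ℂ => ((z / (‖z‖ : ℂ)) ^ (2 * m)).re) z :=
      Complex.reCLM.differentiableAt.comp z ((unit_diff (ann_ne hm hz)).pow (2 * m))
    refine h5.congr_of_eventuallyEq (hev.mono fun y hy => ?_)
    unfold fm
    rw [Set.indicator_of_mem hy]
  · have hev : ∀ᶠ y in 𝓝 z, y ∉ ann m := by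
      by_cases h3 : (m : ℝ) ≤ ‖z‖
      · have h4 : 2 * (m : ℝ) ≤ ‖z‖ := by
          by_contra h5
          push Not at h5
          exact hz ⟨h3, h5⟩
        have h5 : 2 * (m : ℝ) < ‖z‖ := lt_of_le_of_ne h4 (Ne.symm h2)
        have h6 : ∀ᶠ y : ℂ in 𝓝 z, 2 * (m : ℝ) < ‖y‖ :=
          (continuous_norm.tendsto z).eventually (eventually_gt_nhds h5)
        filter_upwards [h6] with y h7 h8
        have : ‖y‖ < 2 * m := h8.2
        linarith
      · push Not at h3
        have h6 : ∀ᶠ y : ℂ in 𝓝 z, ‖y‖ < m :=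
          (continuous_norm.tendsto z).eventually (eventually_lt_nhds h3)
        filter_upwards [h6] with y h7 h8
        have : (m : ℝ) ≤ ‖y‖ := h8.1
        linarith
    refine (differentiableAt_const (0 : ℝ)).congr_of_eventuallyEq (hev.mono fun y hy => ?_)
    exact fm_out hy

lemma fL_adm (m0 : ℕ) (hm0 : 2 ≤ m0) (L : ℕ) : Adm (fL m0 L) where
  meas := fL_meas m0 L
  supp := by
    refine HasCompactSupport.of_support_subset_isCompact (isCompact_closedBall (0 : ℂ) (mj m0 L)) ?_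
    intro z hz
    rw [mem_closedBall_zero_iff]
    by_contra h
    push Not at h
    exact hz ((fL_aux m0 hm0 L).2 z h.le)
  bdd := (fL_aux m0 hm0 L).1
  diff := by
    have h1 : ∀ᵐ z : ℂ, ∀ i : ℕ, ‖z‖ ≠ (mj m0 i : ℝ) ∧ ‖z‖ ≠ 2 * (mj m0 i : ℝ) := by
      rw [ae_all_iff]
      intro i
      have h2 : ∀ r : ℝ, ∀ᵐ z : ℂ, ‖z‖ ≠ r := by
        intro r
        rw [ae_iff]
        have h3 : {a : ℂ | ¬ ‖a‖ ≠ r} = sphere (0 : ℂ) r := by
          ext a
          simp
        rw [h3]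
        exact Measure.addHaar_sphere _ _ _
      exact (h2 _).and (h2 _)
    filter_upwards [h1] with z hz
    unfold fL
    exact DifferentiableAt.fun_sum fun i _ =>
      fm_diff (hm0.trans (mj_ge m0 i)) (hz i).1 (hz i).2
  van := by
    intro z hz
    unfold fL
    refine Finset.sum_eq_zero fun i _ => fm_out fun h => ?_
    have h1 : (mj m0 i : ℝ) ≤ ‖z‖ := h.1
    have h2 : (2 : ℝ) ≤ (mj m0 i : ℝ) := by exact_mod_cast hm0.trans (mj_ge m0 i)
    linarith

/-- the functionals -/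
noncomputable def FF (m0 : ℕ) (hm0 : 2 ≤ m0) (L : ℕ) : EB →L[ℂ] ℂ :=
  ∑ i ∈ Finset.range L, F1 m0 hm0 i

lemma FF_apply (m0 : ℕ) (hm0 : 2 ≤ m0) (L : ℕ) (Ω : EB) : FF m0 hm0 L Ω
    = ∫ p : ℂ × ℂ, ((wt (fL m0 L) p : ℝ) : ℂ) * Ω (Complex.arg (p.1 - p.2)) := by
  unfold FF
  rw [ContinuousLinearMap.sum_apply]
  have h1 : ∀ i, F1 m0 hm0 i Ω = ∫ p : ℂ × ℂ,
      wtc (fun z => ((fm (mj m0 i) z : ℝ) : ℂ)) p * Ω (Complex.arg (p.1 - p.2)) := fun i => rfl
  simp only [h1]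
  rw [← integral_finset_sum _ fun i _ =>
    wtc_mul_int (fm_admC (mj m0 i) (hm0.trans (mj_ge m0 i))) Ω]
  refine integral_congr_ae (Eventually.of_forall fun p => ?_)
  simp only
  rw [← Finset.sum_mul]
  congr 1
  unfold wtc wt fL
  push_cast
  rw [Finset.mul_sum, Finset.sum_div]

lemma wt_re_int (m0 : ℕ) (hm0 : 2 ≤ m0) (L : ℕ) (Ω : EB) : Integrable (fun p : ℂ × ℂ =>
    ((wt (fL m0 L) p : ℝ) : ℂ) * Ω (Complex.arg (p.1 - p.2))) := by
  have h := fL_adm m0 hm0 L
  exact (wt_int h.meas h.int h.van).ofReal.mul_bdd (c := ‖Ω‖) (arg_meas Ω).aestronglyMeasurable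
    (Eventually.of_forall fun p => Ω.norm_coe_le_norm _)

/-- the total weight vanishes -/
lemma wt_zero (m0 : ℕ) (hm0 : 2 ≤ m0) (L : ℕ) : ∫ p : ℂ × ℂ, wt (fL m0 L) p = 0 := by
  have h1 : FF m0 hm0 L (ch 0) = 0 := by
    unfold FF
    rw [ContinuousLinearMap.sum_apply]
    refine Finset.sum_eq_zero fun i _ => ?_
    have := mj_ge m0 i
    exact F1_ch m0 hm0 i 0 (by omega) (by omega)
  rw [FF_apply, ch_zero] at h1
  have h2 : ∀ t : ℝ, (1 : EB) t = 1 := fun t => rfl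
  simp only [h2, mul_one] at h1
  rw [integral_complex_ofReal] at h1
  exact_mod_cast h1

/-- real form of the bound -/
lemma real_bound (H : HC) (m0 : ℕ) (hm0 : 2 ≤ m0) (ω : ℝ → ℝ) (hωm : Measurable ω) (A : ℝ)
    (hωb : ∀ t, |ω t| ≤ A) : ∃ C : ℝ, ∀ L : ℕ,
      |∫ p : ℂ × ℂ, wt (fL m0 L) p * ω (Complex.arg (p.1 - p.2))| ≤ C := by
  obtain ⟨C, hC⟩ := main_bound H ω hωm A hωb
  refine ⟨C, fun L => ?_⟩
  have h := fL_adm m0 hm0 L
  have hi : Integrable (fun p : ℂ × ℂ => wt (fL m0 L) p * ω (Complex.arg (p.1 - p.2))) :=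
    (wt_int h.meas h.int h.van).mul_bdd (c := A)
      (hωm.comp (Complex.measurable_arg.comp
        (measurable_fst.sub measurable_snd))).aestronglyMeasurable
      (Eventually.of_forall fun p => by rw [Real.norm_eq_abs]; exact hωb _)
  have h1 : ∫ p : ℂ × ℂ, phi p.1 * fL m0 L p.2 * ker ω (p.1 - p.2)
      = ∫ p : ℂ × ℂ, wt (fL m0 L) p * ω (Complex.arg (p.1 - p.2)) := by
    have h2 : ∫ p : ℂ × ℂ, wt (fL m0 L) p * ω (Complex.arg (p.1 - p.2))
        = ∫ p : ℂ × ℂ, (wt (fL m0 L) p * ω (Complex.arg (p.1 - p.2))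
            - wt (fL m0 L) p * mean ω) := by
      rw [integral_sub hi ((wt_int h.meas h.int h.van).mul_const _), integral_mul_const,
        wt_zero m0 hm0 L, zero_mul, sub_zero]
    rw [h2]
    refine integral_congr_ae (Eventually.of_forall fun p => ?_)
    simp only [wt, ker]
    ring
  rw [← h1]
  exact hC _ h

/-- pointwise boundedness of the functionals -/
lemma FF_bound (H : HC) (m0 : ℕ) (hm0 : 2 ≤ m0) (Ω : EB) : ∃ C : ℝ, ∀ L, ‖FF m0 hm0 L Ω‖ ≤ C := by
  obtain ⟨C1, hC1⟩ := real_bound H m0 hm0 (fun t => (Ω t).re)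
    (Complex.measurable_re.comp Ω.continuous.measurable) ‖Ω‖
    (fun t => (Complex.abs_re_le_norm _).trans (Ω.norm_coe_le_norm t))
  obtain ⟨C2, hC2⟩ := real_bound H m0 hm0 (fun t => (Ω t).im)
    (Complex.measurable_im.comp Ω.continuous.measurable) ‖Ω‖
    (fun t => (Complex.abs_im_le_norm _).trans (Ω.norm_coe_le_norm t))
  refine ⟨C1 + C2, fun L => ?_⟩
  have hint := wt_re_int m0 hm0 L Ω
  have hre : (FF m0 hm0 L Ω).re
      = ∫ p : ℂ × ℂ, wt (fL m0 L) p * (Ω (Complex.arg (p.1 - p.2))).re := by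
    rw [FF_apply]
    have h1 := integral_re (𝕜 := ℂ) hint
    have h2 : (∫ p : ℂ × ℂ, ((wt (fL m0 L) p : ℝ) : ℂ) * Ω (Complex.arg (p.1 - p.2))).re
        = ∫ p : ℂ × ℂ, (((wt (fL m0 L) p : ℝ) : ℂ) * Ω (Complex.arg (p.1 - p.2))).re := h1.symm
    rw [h2]
    refine integral_congr_ae (Eventually.of_forall fun p => ?_)
    simp only [Complex.re_ofReal_mul]
  have him : (FF m0 hm0 L Ω).im
      = ∫ p : ℂ × ℂ, wt (fL m0 L) p * (Ω (Complex.arg (p.1 - p.2))).im := by
    rw [FF_apply]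
    have h1 := integral_im (𝕜 := ℂ) hint
    have h2 : (∫ p : ℂ × ℂ, ((wt (fL m0 L) p : ℝ) : ℂ) * Ω (Complex.arg (p.1 - p.2))).im
        = ∫ p : ℂ × ℂ, (((wt (fL m0 L) p : ℝ) : ℂ) * Ω (Complex.arg (p.1 - p.2))).im := h1.symm
    rw [h2]
    refine integral_congr_ae (Eventually.of_forall fun p => ?_)
    simp only [Complex.im_ofReal_mul]
  refine (Complex.norm_le_abs_re_add_abs_im _).trans ?_
  rw [hre, him]
  exact add_le_add (hC1 L) (hC2 L)

/-- the assertion is false -/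
theorem not_HC : ¬ HC := by
  intro H
  obtain ⟨D, hD, m0, hm0, hG⟩ := GG_lower
  obtain ⟨K, hK⟩ := banach_steinhaus (g := fun L => FF m0 hm0 L) (FF_bound H m0 hm0)
  have key : ∀ N : ℕ, 1 ≤ N → (N : ℝ) * D ≤ 6 * K := by
    intro N hN
    have hN0 : (0 : ℝ) < N := by exact_mod_cast hN
    set a : ℝ := 1 / N with ha
    set L : ℕ := N ^ 2 with hL
    have ha0 : 0 < a := by positivity
    have hP : ‖PP m0 a L‖ ≤ 3 := by
      refine (BoundedContinuousFunction.norm_le (by norm_num)).2 fun θ => ?_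
      have h1 := PP_sq m0 a L θ
      have h2 : (1 + a ^ 2) ^ L ≤ 9 := by
        have h3 : 1 + a ^ 2 ≤ Real.exp (a ^ 2) := by
          have := Real.add_one_le_exp (a ^ 2)
          linarith
        have h4 : (1 + a ^ 2) ^ L ≤ Real.exp (a ^ 2) ^ L :=
          pow_le_pow_left₀ (by positivity) h3 L
        rw [← Real.exp_nat_mul] at h4
        have h5 : (L : ℝ) * a ^ 2 = 1 := by
          rw [hL, ha]
          push_cast
          field_simp
        rw [h5] at h4
        have h6 := Real.exp_one_lt_d9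
        linarith
      have h3 : ‖PP m0 a L θ‖ ^ 2 ≤ 3 ^ 2 := by
        have := h1.trans h2
        linarith
      exact le_of_sq_le_sq h3 (by norm_num)
    have h1 : FF m0 hm0 L (PP m0 a L) = Complex.I *
        ((a * (1 / 2) * ∑ i ∈ Finset.range L, (GG (mj m0 i)).re : ℝ) : ℂ) := by
      unfold FF
      rw [ContinuousLinearMap.sum_apply]
      push_cast
      rw [Finset.mul_sum, Finset.mul_sum]
      refine Finset.sum_congr rfl fun i hi => ?_
      rw [F1_PP, if_pos (Finset.mem_range.1 hi)]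
      ring
    have h2 : ‖FF m0 hm0 L (PP m0 a L)‖ ≤ K * 3 :=
      ((FF m0 hm0 L).le_opNorm _).trans
        (mul_le_mul (hK L) hP (norm_nonneg _) ((norm_nonneg _).trans (hK L)))
    rw [h1, norm_mul, Complex.norm_I, one_mul, Complex.norm_real, Real.norm_eq_abs] at h2
    have h3 : (L : ℝ) * D ≤ ∑ i ∈ Finset.range L, (GG (mj m0 i)).re := by
      have h4 : ∑ _i ∈ Finset.range L, D ≤ ∑ i ∈ Finset.range L, (GG (mj m0 i)).re :=
        Finset.sum_le_sum fun i _ => hG _ (mj_ge m0 i)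
      simpa using h4
    have h4 : a * (1 / 2) * ((L : ℝ) * D) ≤ K * 3 := by
      refine le_trans ?_ ((le_abs_self _).trans h2)
      exact mul_le_mul_of_nonneg_left h3 (by positivity)
    have h5 : a * (1 / 2) * ((L : ℝ) * D) = N * D / 2 := by
      rw [hL, ha]
      push_cast
      field_simp
    rw [h5] at h4
    linarith
  obtain ⟨N, hN⟩ := exists_nat_gt (6 * K / D)
  have h1 := key (N + 1) (by omega)
  rw [div_lt_iff₀ hD] at hN
  push_cast at h1
  nlinarith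

/-- the assertion of the problem is false -/
theorem not_HE : ¬ HE := fun H => not_HC (hc_of_he H)

end Pool.Agent.Y499.RK
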