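import Mathlib

/-!
Principal values of rough homogeneous kernels at points of differentiability; mean zero kernels in
the plane.
-/

set_option autoImplicit false
open MeasureTheory Filter Topology Metric

namespace Pool.Agent.Y499.RK

/-- the mean of an angular function -/
noncomputable def mean (ω : ℝ → ℝ) : ℝ :=
  (2 * Real.pi)⁻¹ * ∫ θ in Set.Ioo (-Real.pi) Real.pi, ω θ

/-- the homogeneous kernel with the given angular part, made mean zero -/
noncomputable def ker (ω : ℝ → ℝ) (w : ℂ) : ℝ := (ω (Complex.arg w) - mean ω) / ‖w‖ ^ 2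

/-- radial functions times mean zero angular functions have integral zero -/
lemma radial_zero (ω : ℝ → ℝ) (hω : IntegrableOn ω (Set.Ioo (-Real.pi) Real.pi)) (h : ℝ → ℝ) :
    ∫ w : ℂ, h ‖w‖ * (ω (Complex.arg w) - mean ω) = 0 := by
  rw [← Complex.integral_comp_polarCoord_symm]
  have hpi : 0 < Real.pi := Real.pi_pos
  have h1 : ∫ p in polarCoord.target, p.1 • (h ‖Complex.polarCoord.symm p‖ *
      (ω (Complex.arg (Complex.polarCoord.symm p)) - mean ω)) =
      ∫ p in Set.Ioi (0 : ℝ) ×ˢ Set.Ioo (-Real.pi) Real.pi, (p.1 * h p.1) * (ω p.2 - mean ω) := by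
    refine setIntegral_congr_fun (measurableSet_Ioi.prod measurableSet_Ioo) fun p hp => ?_
    have hp1 : 0 < p.1 := hp.1
    have hp2 : p.2 ∈ Set.Ioo (-Real.pi) Real.pi := hp.2
    simp only [smul_eq_mul]
    rw [Complex.norm_polarCoord_symm, abs_of_pos hp1, Complex.polarCoord_symm_apply,
      Complex.ofReal_cos, Complex.ofReal_sin,
      Complex.arg_mul_cos_add_sin_mul_I hp1 ⟨hp2.1, hp2.2.le⟩]
    ring
  rw [h1, Measure.volume_eq_prod,
    setIntegral_prod_mul (fun r : ℝ => r * h r) (fun θ : ℝ => ω θ - mean ω)]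
  have h2 : ∫ θ in Set.Ioo (-Real.pi) Real.pi, (ω θ - mean ω) = 0 := by
    rw [integral_sub hω (integrable_const _)]
    rw [integral_const, mean]
    simp only [measureReal_restrict_apply_univ, smul_eq_mul]
    rw [Real.volume_real_Ioo_of_le (by linarith)]
    field_simp
    ring
  rw [h2, mul_zero]

lemma ker_zero_set (ω : ℝ → ℝ) (hω : IntegrableOn ω (Set.Ioo (-Real.pi) Real.pi)) (S : Set ℝ)
    (hS : MeasurableSet S) : ∫ w in {w : ℂ | ‖w‖ ∈ S}, ker ω w = 0 := by
  have hms : MeasurableSet {w : ℂ | ‖w‖ ∈ S} := measurable_norm hS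
  rw [← integral_indicator hms]
  have h1 := radial_zero ω hω (S.indicator fun r => (r ^ 2)⁻¹)
  rw [← h1]
  refine integral_congr_ae (Eventually.of_forall fun w => ?_)
  by_cases hw : ‖w‖ ∈ S
  · have : w ∈ {w : ℂ | ‖w‖ ∈ S} := hw
    simp only [Set.indicator_of_mem this, Set.indicator_of_mem hw, ker]
    rw [div_eq_mul_inv, mul_comm]
  · have : w ∉ {w : ℂ | ‖w‖ ∈ S} := hw
    simp only [Set.indicator_of_notMem this, Set.indicator_of_notMem hw, zero_mul]

/-- integrability of `1/|y|` near the origin of the plane -/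
lemma inv_norm_integrable (δ : ℝ) :
    Integrable (fun y : ℂ => (Set.Iic δ).indicator (fun r : ℝ => r⁻¹) ‖y‖) := by
  have h := (integrable_fun_norm_addHaar (volume : Measure ℂ)
    (f := (Set.Iic δ).indicator (fun r : ℝ => r⁻¹))).2 ?_
  · exact h
  · rw [Complex.finrank_real_complex]
    have h1 : IntegrableOn ((Set.Iic δ).indicator (fun _ : ℝ => (1 : ℝ))) (Set.Ioi (0 : ℝ)) := by
      rw [IntegrableOn, integrable_indicator_iff measurableSet_Iic, IntegrableOn,
        Measure.restrict_restrict measurableSet_Iic]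
      refine integrableOn_const ?_
      refine ((measure_mono (?_ : _ ⊆ Set.Icc (0 : ℝ) δ)).trans_lt measure_Icc_lt_top).ne
      intro x hx
      exact ⟨le_of_lt hx.2, hx.1⟩
    refine h1.congr_fun (fun r hr => ?_) measurableSet_Ioi
    have hr0 : (r : ℝ) ≠ 0 := ne_of_gt hr
    by_cases hrδ : r ∈ Set.Iic δ
    · simp only [Set.indicator_of_mem hrδ, smul_eq_mul]
      norm_num
      rw [mul_inv_cancel₀ hr0]
    · simp only [Set.indicator_of_notMem hrδ, smul_zero]

/-- existence of principal values at points of differentiability -/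
theorem pv_exists (κ : ℂ → ℝ) (hm : Measurable κ) (B : ℝ) (hB : ∀ w, |κ w| ≤ B / ‖w‖ ^ 2)
    (h0 : ∀ S : Set ℝ, MeasurableSet S → ∫ y in {y : ℂ | ‖y‖ ∈ S}, κ y = 0)
    (f : ℂ → ℝ) (hfm : Measurable f) (hfc : HasCompactSupport f) (hfb : ∀ x, |f x| ≤ 1)
    (x : ℂ) (hd : DifferentiableAt ℝ f x) :
    ∃ l : ℝ, Tendsto (fun ε : ℝ => ∫ y in {y : ℂ | ε < ‖y‖}, κ y * f (x - y)) (𝓝[>] 0) (𝓝 l) := by
  have hB0 : 0 ≤ B := by
    have h := (abs_nonneg _).trans (hB 1)
    simpa using h
  obtain ⟨K, hK⟩ := hd.isBigO_sub.bound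
  obtain ⟨δ, hδ, hδK⟩ := Metric.eventually_nhds_iff_ball.1 hK
  have hfi : Integrable f := by
    refine (integrableOn_iff_integrable_of_support_subset (subset_tsupport f)).1 ?_
    refine Measure.integrableOn_of_bounded (M := 1) hfc.measure_lt_top.ne
      hfm.aestronglyMeasurable (Eventually.of_forall fun y => ?_)
    rw [Real.norm_eq_abs]
    exact hfb y
  have hfx : Integrable (fun y => f (x - y)) := hfi.comp_sub_left x
  have hfxm : Measurable (fun y => f (x - y)) := hfm.comp (measurable_const.sub measurable_id)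
  set δ' := δ / 2 with hδ'
  have hδ'0 : 0 < δ' := by positivity
  have hcl : ∀ y : ℂ, ‖y‖ ≤ δ' → |f (x - y) - f x| ≤ K * ‖y‖ := by
    intro y hy
    have h1 := hδK (x - y) (by
      rw [mem_ball, dist_eq_norm]
      have : x - y - x = -y := by ring
      rw [this, norm_neg]
      linarith)
    rw [Real.norm_eq_abs] at h1
    have : x - y - x = -y := by ring
    rw [this, norm_neg] at h1
    exact h1
  set J : ℂ → ℝ := fun y => (Set.Iic δ').indicator (fun _ => (1 : ℝ)) ‖y‖ with hJ
  have hJm : Measurable J := (measurable_const.indicator measurableSet_Iic).comp measurable_norm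
  set H : ℂ → ℝ := fun y => κ y * (f (x - y) - f x * J y) with hH
  have hHm : Measurable H := hm.mul (hfxm.sub (hJm.const_mul _))
  have hHi : Integrable H := by
    refine Integrable.mono' (((inv_norm_integrable δ').const_mul (B * K)).add
      (hfx.abs.const_mul (B / δ' ^ 2))) hHm.aestronglyMeasurable
      (Eventually.of_forall fun y => ?_)
    rw [Real.norm_eq_abs]
    simp only [hH, Pi.add_apply, abs_mul]
    have hb := hB y
    by_cases hy : ‖y‖ ≤ δ'
    · have hy' : ‖y‖ ∈ Set.Iic δ' := hy
      simp only [hJ, Set.indicator_of_mem hy', mul_one]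
      have h1 := hcl y hy
      have h2 : 0 ≤ B / δ' ^ 2 * |f (x - y)| := by positivity
      rcases eq_or_ne y 0 with rfl | hy0
      · have : |κ 0| ≤ 0 := by simpa using hb
        have h3 : |κ 0| = 0 := le_antisymm this (abs_nonneg _)
        rw [h3]
        simp only [norm_zero, inv_zero, zero_mul, mul_zero, zero_add]
        exact h2
      · have hn : 0 < ‖y‖ := norm_pos_iff.2 hy0
        calc |κ y| * |f (x - y) - f x| ≤ (B / ‖y‖ ^ 2) * (K * ‖y‖) :=
              mul_le_mul hb h1 (abs_nonneg _) (by positivity)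
          _ = B * K * ‖y‖⁻¹ := by field_simp
          _ ≤ _ := by linarith
    · have hy' : ‖y‖ ∉ Set.Iic δ' := hy
      simp only [hJ, Set.indicator_of_notMem hy', mul_zero, sub_zero, zero_add]
      push Not at hy
      refine mul_le_mul_of_nonneg_right (hb.trans ?_) (abs_nonneg _)
      gcongr
  have hcov : AECover (volume : Measure ℂ) (𝓝[>] (0 : ℝ)) (fun ε : ℝ => {y : ℂ | ε < ‖y‖}) := by
    refine ⟨?_, fun ε => measurableSet_lt measurable_const measurable_norm⟩
    have h1 : ∀ᵐ y : ℂ, y ≠ 0 := by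
      rw [ae_iff]
      simp
    filter_upwards [h1] with y hy
    have h2 : 0 < ‖y‖ := norm_pos_iff.2 hy
    exact (eventually_lt_nhds h2).filter_mono nhdsWithin_le_nhds
  refine ⟨∫ y, H y, ?_⟩
  refine (hcov.integral_tendsto_of_countably_generated hHi).congr' ?_
  have h2 : ∀ᶠ ε in 𝓝[>] (0 : ℝ), 0 < ε := eventually_mem_nhdsWithin
  filter_upwards [h2] with ε hε
  have hmsε : MeasurableSet {y : ℂ | ε < ‖y‖} := measurableSet_lt measurable_const measurable_norm
  -- integrability of the truncated kernel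
  have hkJ : IntegrableOn (fun y => κ y * J y) {y : ℂ | ε < ‖y‖} := by
    have hsub : IntegrableOn κ ({y : ℂ | ε < ‖y‖} ∩ closedBall 0 δ') := by
      refine Measure.integrableOn_of_bounded (M := B / ε ^ 2)
        ((measure_mono Set.inter_subset_right).trans_lt measure_closedBall_lt_top).ne
        hm.aestronglyMeasurable ?_
      refine (ae_restrict_iff' (hmsε.inter measurableSet_closedBall)).2
        (Eventually.of_forall fun y hy => ?_)
      rw [Real.norm_eq_abs]
      have : ε < ‖y‖ := hy.1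
      refine (hB y).trans ?_
      gcongr
    have hrw : (fun y => κ y * J y) = (closedBall (0 : ℂ) δ').indicator κ := by
      funext y
      by_cases hy : ‖y‖ ≤ δ'
      · have hy' : ‖y‖ ∈ Set.Iic δ' := hy
        have hy2 : y ∈ closedBall (0 : ℂ) δ' := by simpa using hy
        simp only [hJ, Set.indicator_of_mem hy', Set.indicator_of_mem hy2, mul_one]
      · have hy' : ‖y‖ ∉ Set.Iic δ' := hy
        have hy2 : y ∉ closedBall (0 : ℂ) δ' := by simpa using hy
        simp only [hJ, Set.indicator_of_notMem hy', Set.indicator_of_notMem hy2, mul_zero]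
    rw [hrw, IntegrableOn, integrable_indicator_iff measurableSet_closedBall, IntegrableOn,
      Measure.restrict_restrict measurableSet_closedBall, Set.inter_comm]
    exact hsub
  have hkJ0 : ∫ y in {y : ℂ | ε < ‖y‖}, κ y * J y = 0 := by
    have h3 := h0 (Set.Ioc ε δ') measurableSet_Ioc
    rw [← h3]
    have hms3 : MeasurableSet {y : ℂ | ‖y‖ ∈ Set.Ioc ε δ'} := measurable_norm measurableSet_Ioc
    rw [← integral_indicator hmsε, ← integral_indicator hms3]
    refine integral_congr_ae (Eventually.of_forall fun y => ?_)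
    simp only [Set.indicator_apply, Set.mem_setOf_eq, Set.mem_Ioc, hJ, Set.mem_Iic]
    by_cases h4 : ε < ‖y‖ <;> by_cases h5 : ‖y‖ ≤ δ' <;> simp [h4, h5]
  have heq : ∀ y, κ y * f (x - y) = H y + f x * (κ y * J y) := by
    intro y
    simp only [hH]
    ring
  calc ∫ y in {y : ℂ | ε < ‖y‖}, H y
      = (∫ y in {y : ℂ | ε < ‖y‖}, H y) + f x * ∫ y in {y : ℂ | ε < ‖y‖}, κ y * J y := by
        rw [hkJ0, mul_zero, add_zero]
    _ = ∫ y in {y : ℂ | ε < ‖y‖}, (H y + f x * (κ y * J y)) := by
        rw [integral_add hHi.integrableOn (hkJ.const_mul _), integral_const_mul]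
    _ = ∫ y in {y : ℂ | ε < ‖y‖}, κ y * f (x - y) := by
        refine integral_congr_ae (Eventually.of_forall fun y => ?_)
        exact (heq y).symm

end Pool.Agent.Y499.RK
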