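import Pool.Agent.Y499.RK.Trans
import Pool.Agent.Y499.RK.PV

/-!
The test function on the unit disc, and the functional which the BMO bound controls.
-/

set_option autoImplicit false
open MeasureTheory Filter Topology Metric

namespace Pool.Agent.Y499.RK

/-- the test function: mean zero on the unit disc -/
noncomputable def phi (x : ℂ) : ℝ :=
  (ball (0 : ℂ) (1 / 2)).indicator (fun _ => (4 : ℝ)) x - (ball (0 : ℂ) 1).indicator (fun _ => (1 : ℝ)) x

lemma phi_meas : Measurable phi :=
  (measurable_const.indicator measurableSet_ball).sub (measurable_const.indicator measurableSet_ball)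

lemma phi_abs (x : ℂ) : |phi x| ≤ 3 := by
  unfold phi
  by_cases h1 : x ∈ ball (0 : ℂ) (1 / 2)
  · have h2 : x ∈ ball (0 : ℂ) 1 := ball_subset_ball (by norm_num) h1
    rw [Set.indicator_of_mem h1, Set.indicator_of_mem h2]
    norm_num
  · by_cases h2 : x ∈ ball (0 : ℂ) 1
    · rw [Set.indicator_of_notMem h1, Set.indicator_of_mem h2]
      norm_num
    · rw [Set.indicator_of_notMem h1, Set.indicator_of_notMem h2]
      norm_num

lemma phi_out {x : ℂ} (hx : x ∉ ball (0 : ℂ) 1) : phi x = 0 := by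
  unfold phi
  have h1 : x ∉ ball (0 : ℂ) (1 / 2) := fun h => hx (ball_subset_ball (by norm_num) h)
  rw [Set.indicator_of_notMem h1, Set.indicator_of_notMem hx, sub_zero]

lemma phi_int : Integrable phi := by
  have h1 : ∀ r : ℝ, ∀ c : ℝ, Integrable ((ball (0 : ℂ) r).indicator (fun _ => c)) := by
    intro r c
    rw [integrable_indicator_iff measurableSet_ball]
    exact integrableOn_const measure_ball_lt_top.ne
  exact (h1 _ _).sub (h1 _ _)

lemma vol_ball (r : ℝ) (hr : 0 ≤ r) : (volume : Measure ℂ).real (ball (0 : ℂ) r) = Real.pi * r ^ 2 := by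
  rw [measureReal_def, Complex.volume_ball, ENNReal.toReal_mul, ENNReal.toReal_pow,
    ENNReal.toReal_ofReal hr]
  simp
  ring

lemma phi_zero : ∫ x, phi x = 0 := by
  have h1 : ∀ r : ℝ, ∀ c : ℝ, Integrable ((ball (0 : ℂ) r).indicator (fun _ => c)) := by
    intro r c
    rw [integrable_indicator_iff measurableSet_ball]
    exact integrableOn_const measure_ball_lt_top.ne
  unfold phi
  rw [integral_sub (h1 _ _) (h1 _ _), integral_indicator measurableSet_ball,
    integral_indicator measurableSet_ball, integral_const, integral_const]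
  simp only [measureReal_restrict_apply_univ, smul_eq_mul]
  rw [vol_ball _ (by norm_num), vol_ball _ (by norm_num)]
  ring

lemma phi_mul_ind (h : ℂ → ℝ) : ∫ x, phi x * h x = ∫ x in ball (0 : ℂ) 1, phi x * h x := by
  rw [← integral_indicator measurableSet_ball]
  refine integral_congr_ae (Eventually.of_forall fun x => ?_)
  by_cases hx : x ∈ ball (0 : ℂ) 1
  · simp only [Set.indicator_of_mem hx]
  · simp only [Set.indicator_of_notMem hx, phi_out hx, zero_mul]

/-- testing against the test function is controlled by the mean oscillation on the unit disc -/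
lemma phi_osc (g : ℂ → ℝ) (hg : IntegrableOn g (ball 0 1)) (C : ℝ)
    (hC : (⨍ x in ball (0 : ℂ) 1, |g x - ⨍ y in ball (0 : ℂ) 1, g y|) ≤ C) :
    |∫ x, phi x * g x| ≤ 3 * (Real.pi * C) := by
  set a := ⨍ y in ball (0 : ℂ) 1, g y with ha
  have hpg : IntegrableOn (fun x => phi x * g x) (ball 0 1) :=
    Integrable.bdd_mul (c := 3) hg phi_meas.aestronglyMeasurable
      (Eventually.of_forall fun x => by rw [Real.norm_eq_abs]; exact phi_abs x)
  have hpa : IntegrableOn (fun x => phi x * a) (ball 0 1) := (phi_int.mul_const a).integrableOn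
  have hga : IntegrableOn (fun x => |g x - a|) (ball 0 1) :=
    (hg.sub (integrableOn_const measure_ball_lt_top.ne)).abs
  have h1 : ∫ x, phi x * g x = ∫ x in ball (0 : ℂ) 1, phi x * (g x - a) := by
    rw [phi_mul_ind]
    have h2 : ∫ x in ball (0 : ℂ) 1, phi x * a = 0 := by
      rw [← phi_mul_ind (fun _ => a), integral_mul_const, phi_zero, zero_mul]
    rw [← sub_zero (∫ x in ball (0 : ℂ) 1, phi x * g x), ← h2, ← integral_sub hpg hpa]
    refine integral_congr_ae (Eventually.of_forall fun x => ?_)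
    simp only
    ring
  rw [h1]
  have h3 : |∫ x in ball (0 : ℂ) 1, phi x * (g x - a)| ≤ ∫ x in ball (0 : ℂ) 1, 3 * |g x - a| := by
    refine (abs_integral_le_integral_abs).trans ?_
    refine integral_mono_of_nonneg (Eventually.of_forall fun x => abs_nonneg _)
      (hga.const_mul 3) (Eventually.of_forall fun x => ?_)
    simp only [abs_mul]
    exact mul_le_mul_of_nonneg_right (phi_abs x) (abs_nonneg _)
  refine h3.trans ?_
  rw [integral_const_mul]
  rw [setAverage_eq, smul_eq_mul, vol_ball 1 (by norm_num)] at hC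
  have hpi := Real.pi_pos
  have h4 : ∫ x in ball (0 : ℂ) 1, |g x - a| ≤ Real.pi * C := by
    have h5 := mul_le_mul_of_nonneg_left hC hpi.le
    have h6 : Real.pi * ((Real.pi * 1 ^ 2)⁻¹ * ∫ x in ball (0 : ℂ) 1, |g x - a|)
        = ∫ x in ball (0 : ℂ) 1, |g x - a| := by
      field_simp
    rw [h6] at h5
    exact h5
  linarith

/-- admissible densities -/
structure Adm (f : ℂ → ℝ) : Prop where
  meas : Measurable f
  supp : HasCompactSupport f
  bdd : ∀ x, |f x| ≤ 1
  diff : ∀ᵐ x : ℂ, DifferentiableAt ℝ f x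
  van : ∀ x, ‖x‖ < 2 → f x = 0

lemma Adm.int {f : ℂ → ℝ} (hf : Adm f) : Integrable f := by
  refine (integrableOn_iff_integrable_of_support_subset (subset_tsupport f)).1 ?_
  refine Measure.integrableOn_of_bounded (M := 1) hf.supp.measure_lt_top.ne
    hf.meas.aestronglyMeasurable (Eventually.of_forall fun y => ?_)
  rw [Real.norm_eq_abs]
  exact hf.bdd y

/-- the weight on the product -/
noncomputable def wt (f : ℂ → ℝ) (p : ℂ × ℂ) : ℝ := phi p.1 * f p.2 / ‖p.1 - p.2‖ ^ 2

lemma wt_bound {f : ℂ → ℝ} (hv : ∀ x, ‖x‖ < 2 → f x = 0) (p : ℂ × ℂ) :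
    |wt f p| ≤ |phi p.1 * f p.2| := by
  unfold wt
  by_cases h1 : p.1 ∈ ball (0 : ℂ) 1
  · by_cases h2 : ‖p.2‖ < 2
    · rw [hv _ h2]
      simp
    · push Not at h2
      have h3 : ‖p.1‖ < 1 := by simpa using h1
      have h4 : 1 ≤ ‖p.1 - p.2‖ := by
        have := norm_sub_norm_le p.2 p.1
        rw [norm_sub_rev] at this
        linarith
      rw [abs_div, abs_of_nonneg (by positivity : 0 ≤ ‖p.1 - p.2‖ ^ 2)]
      exact div_le_self (abs_nonneg _) (one_le_pow₀ h4)
  · rw [phi_out h1]
    simp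

lemma wt_meas {f : ℂ → ℝ} (hf : Measurable f) : Measurable (wt f) :=
  ((phi_meas.comp measurable_fst).mul (hf.comp measurable_snd)).div
    ((measurable_fst.sub measurable_snd).norm.pow_const 2)

lemma wt_int {f : ℂ → ℝ} (hm : Measurable f) (hi : Integrable f) (hv : ∀ x, ‖x‖ < 2 → f x = 0) :
    Integrable (wt f) := by
  have h1 : Integrable (fun p : ℂ × ℂ => phi p.1 * f p.2) := phi_int.mul_prod hi
  refine Integrable.mono' h1.abs (wt_meas hm).aestronglyMeasurable (Eventually.of_forall fun p => ?_)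
  rw [Real.norm_eq_abs]
  exact wt_bound hv p

lemma ker_meas {ω : ℝ → ℝ} (hω : Measurable ω) : Measurable (ker ω) :=
  ((hω.comp Complex.measurable_arg).sub_const _).div (measurable_norm.pow_const 2)

/-- the functional controlled by the BMO norm -/
theorem main_bound (H : HC) (ω : ℝ → ℝ) (hωm : Measurable ω) (A : ℝ) (hωb : ∀ t, |ω t| ≤ A) :
    ∃ C : ℝ, ∀ f : ℂ → ℝ, Adm f →
      |∫ p : ℂ × ℂ, phi p.1 * f p.2 * ker ω (p.1 - p.2)| ≤ C := by
  have hωi : IntegrableOn ω (Set.Ioo (-Real.pi) Real.pi) :=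
    Measure.integrableOn_of_bounded (M := A) measure_Ioo_lt_top.ne hωm.aestronglyMeasurable
      (Eventually.of_forall fun t => by rw [Real.norm_eq_abs]; exact hωb t)
  set B := A + |mean ω| with hBdef
  have hB : ∀ w, |ker ω w| ≤ B / ‖w‖ ^ 2 := by
    intro w
    unfold ker
    rw [abs_div, abs_of_nonneg (by positivity : 0 ≤ ‖w‖ ^ 2)]
    refine div_le_div_of_nonneg_right ?_ (by positivity)
    refine (abs_sub _ _).trans ?_
    have := hωb (Complex.arg w)
    linarith
  have hB0 : 0 ≤ B := by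
    have := (abs_nonneg _).trans (hB 1)
    simpa using this
  have hkm := ker_meas hωm
  have hk0 : ∀ S : Set ℝ, MeasurableSet S → ∫ y in {y : ℂ | ‖y‖ ∈ S}, ker ω y = 0 :=
    fun S hS => ker_zero_set ω hωi S hS
  obtain ⟨C, hC⟩ := H (ker ω) hkm
    (by
      intro x hx t ht
      unfold ker
      rw [Complex.real_smul, Complex.arg_real_mul _ ht, norm_mul, Complex.norm_of_nonneg ht.le,
        mul_pow, zpow_neg]
      have : (t : ℝ) ^ (2 : ℤ) = t ^ 2 := by norm_cast
      rw [this]
      field_simp)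
    ⟨B, fun x hx => (hB x).trans (div_le_self hB0 (one_le_pow₀ hx))⟩
    (hk0 (Set.Icc 1 2) measurableSet_Icc)
  refine ⟨3 * (Real.pi * C), fun f hf => ?_⟩
  -- the principal value
  set g : ℂ → ℝ := fun x => limUnder (𝓝[>] (0 : ℝ))
    (fun ε : ℝ => ∫ y in {y : ℂ | ε < ‖y‖}, ker ω y * f (x - y)) with hgdef
  have hlim : ∀ᵐ x : ℂ, Tendsto (fun ε : ℝ => ∫ y in {y : ℂ | ε < ‖y‖}, ker ω y * f (x - y))
      (𝓝[>] 0) (𝓝 (g x)) := by
    filter_upwards [hf.diff] with x hx
    exact tendsto_nhds_limUnder (pv_exists (ker ω) hkm B hB hk0 f hf.meas hf.supp hf.bdd x hx)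
  obtain ⟨h1, h2⟩ := hC f hf.meas hf.supp hf.bdd g hlim
  have h3 := phi_osc g h1 C h2
  -- identification of g on the unit disc
  have h4 : ∀ᵐ x : ℂ, phi x * g x = ∫ z, phi x * f z * ker ω (x - z) := by
    filter_upwards [hlim] with x hx
    by_cases hx1 : x ∈ ball (0 : ℂ) 1
    · have hx2 : ‖x‖ < 1 := by simpa using hx1
      have h5 : ∀ᶠ ε in 𝓝[>] (0 : ℝ), ∫ y in {y : ℂ | ε < ‖y‖}, ker ω y * f (x - y)
          = ∫ y, ker ω y * f (x - y) := by
        have h6 : ∀ᶠ ε in 𝓝[>] (0 : ℝ), ε < 1 :=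
          (eventually_lt_nhds one_pos).filter_mono nhdsWithin_le_nhds
        filter_upwards [h6] with ε hε
        refine setIntegral_eq_integral_of_forall_compl_eq_zero fun y hy => ?_
        have hy' : ‖y‖ ≤ ε := by simpa using hy
        rw [hf.van (x - y) ((norm_sub_le _ _).trans_lt (by linarith)), mul_zero]
      have h7 : g x = ∫ y, ker ω y * f (x - y) :=
        tendsto_nhds_unique hx (tendsto_const_nhds.congr' (h5.mono fun ε h => h.symm))
      rw [h7, ← integral_sub_left_eq_self (fun y => ker ω y * f (x - y)) volume x,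
        ← integral_const_mul]
      refine integral_congr_ae (Eventually.of_forall fun z => ?_)
      simp only [sub_sub_cancel]
      ring
    · rw [phi_out hx1]
      simp
  have h8 : Integrable (fun p : ℂ × ℂ => phi p.1 * f p.2 * ker ω (p.1 - p.2)) := by
    refine Integrable.mono' ((wt_int hf.meas hf.int hf.van).abs.const_mul B)
      (((phi_meas.comp measurable_fst).mul (hf.meas.comp measurable_snd)).mul
        (hkm.comp (measurable_fst.sub measurable_snd))).aestronglyMeasurable
      (Eventually.of_forall fun p => ?_)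
    rw [Real.norm_eq_abs]
    unfold wt
    rw [abs_mul, abs_div, abs_of_nonneg (by positivity : 0 ≤ ‖p.1 - p.2‖ ^ 2)]
    calc |phi p.1 * f p.2| * |ker ω (p.1 - p.2)|
        ≤ |phi p.1 * f p.2| * (B / ‖p.1 - p.2‖ ^ 2) :=
          mul_le_mul_of_nonneg_left (hB _) (abs_nonneg _)
      _ = B * (|phi p.1 * f p.2| / ‖p.1 - p.2‖ ^ 2) := by ring
  have h9 : ∫ p : ℂ × ℂ, phi p.1 * f p.2 * ker ω (p.1 - p.2) = ∫ x, phi x * g x := by
    rw [Measure.volume_eq_prod, integral_prod _ (by rw [← Measure.volume_eq_prod]; exact h8)]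
    exact integral_congr_ae (h4.mono fun x hx => hx.symm)
  rw [h9]
  exact h3

end Pool.Agent.Y499.RK
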