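import Pool.Agent.Y499.RK.Rot

/-!
The main coefficients have a limit with positive real part.
-/

set_option autoImplicit false
open MeasureTheory Filter Topology Metric

namespace Pool.Agent.Y499.RK

/-- the cut off of the limit annulus -/
noncomputable def ca (z : ℂ) : ℝ := (ann 1).indicator (fun _ => (1 : ℝ)) z

lemma ca_meas : Measurable ca := measurable_const.indicator (ann_meas 1)

lemma ca_int : Integrable ca := by
  unfold ca
  rw [integrable_indicator_iff (ann_meas 1)]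
  refine integrableOn_const ?_
  refine ((measure_mono (?_ : _ ⊆ closedBall (0 : ℂ) 2)).trans_lt measure_closedBall_lt_top).ne
  intro z hz
  have h : ‖z‖ < 2 * ((1 : ℕ) : ℝ) := hz.2
  have : ‖z‖ ≤ 2 := by
    norm_num at h
    exact h.le
  simpa using this

lemma ca_nonneg (z : ℂ) : 0 ≤ ca z := Set.indicator_nonneg (fun _ _ => zero_le_one) _

lemma ca_le (z : ℂ) : ca z ≤ 1 := by
  unfold ca
  by_cases hz : z ∈ ann 1
  · rw [Set.indicator_of_mem hz]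
  · rw [Set.indicator_of_notMem hz]
    exact zero_le_one

lemma ca_out {z : ℂ} (hz : z ∉ ann 1) : ca z = 0 := Set.indicator_of_notMem hz _

lemma ca_in {z : ℂ} (hz : z ∈ ann 1) : ca z = 1 := Set.indicator_of_mem hz _

lemma one_le_of_ann {z : ℂ} (hz : z ∈ ann 1) : 1 ≤ ‖z‖ := by
  have h : ((1 : ℕ) : ℝ) ≤ ‖z‖ := hz.1
  simpa using h

/-- the power -/
noncomputable def qq (m : ℕ) (s : ℂ) : ℂ := (1 + (-s) / m) ^ m

/-- the rescaled integrand -/
noncomputable def Fm (m : ℕ) (p : ℂ × ℂ) : ℂ :=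
  (phi p.1 : ℂ) * (ca p.2 : ℂ) * (qq m (p.1 / p.2) ^ 2 / ((‖qq m (p.1 / p.2)‖ ^ 2 : ℝ) : ℂ))
    / (((‖1 + (-(p.1 / p.2)) / (m : ℂ)‖ ^ 2 * ‖p.2‖ ^ 2 : ℝ)) : ℂ)

/-- the limit integrand -/
noncomputable def Fi (p : ℂ × ℂ) : ℂ :=
  (phi p.1 : ℂ) * (ca p.2 : ℂ) *
    (Complex.exp (-(p.1 / p.2)) ^ 2 / ((‖Complex.exp (-(p.1 / p.2))‖ ^ 2 : ℝ) : ℂ))
    / (((‖p.2‖ ^ 2 : ℝ)) : ℂ)

lemma den_bound {m : ℕ} (hm : 2 ≤ m) {s : ℂ} (hs : ‖s‖ ≤ 1) : 1 / 2 ≤ ‖1 + (-s) / (m : ℂ)‖ := by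
  have h2 : (2 : ℝ) ≤ m := by exact_mod_cast hm
  have h1 : ‖(-s) / (m : ℂ)‖ ≤ 1 / 2 := by
    rw [norm_div, norm_neg, Complex.norm_natCast, div_le_iff₀ (by linarith)]
    nlinarith [norm_nonneg s]
  have h3 : ‖(1 : ℂ)‖ ≤ ‖1 + (-s) / (m : ℂ)‖ + ‖(-s) / (m : ℂ)‖ := by
    have := norm_sub_le (1 + (-s) / (m : ℂ)) ((-s) / (m : ℂ))
    rwa [add_sub_cancel_right] at this
  rw [norm_one] at h3
  linarith

lemma s_bound {x z : ℂ} (hx : x ∈ ball (0 : ℂ) 1) (hz : z ∈ ann 1) : ‖x / z‖ ≤ 1 := by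
  have h1 : ‖x‖ < 1 := by simpa using hx
  have h2 := one_le_of_ann hz
  rw [norm_div, div_le_one (by linarith)]
  linarith

lemma norm_sq_div (q : ℂ) : ‖q ^ 2 / ((‖q‖ ^ 2 : ℝ) : ℂ)‖ ≤ 1 := by
  rw [norm_div, norm_pow, Complex.norm_real, Real.norm_eq_abs, abs_of_nonneg (by positivity)]
  exact div_self_le_one _

lemma Fm_norm {m : ℕ} (hm : 2 ≤ m) (p : ℂ × ℂ) : ‖Fm m p‖ ≤ 4 * (|phi p.1| * ca p.2) := by
  by_cases hx : p.1 ∈ ball (0 : ℂ) 1
  swap
  · unfold Fm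
    rw [phi_out hx]
    simp
  by_cases hz : p.2 ∈ ann 1
  swap
  · unfold Fm
    rw [ca_out hz]
    simp
  have h1 := den_bound hm (s_bound hx hz)
  have h2 := one_le_of_ann hz
  unfold Fm
  rw [norm_div, norm_mul, norm_mul, Complex.norm_real, Complex.norm_real, Real.norm_eq_abs,
    Real.norm_eq_abs, abs_of_nonneg (ca_nonneg _)]
  have h3 : ‖(((‖1 + (-(p.1 / p.2)) / (m : ℂ)‖ ^ 2 * ‖p.2‖ ^ 2 : ℝ)) : ℂ)‖
      = ‖1 + (-(p.1 / p.2)) / (m : ℂ)‖ ^ 2 * ‖p.2‖ ^ 2 := by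
    rw [Complex.norm_real, Real.norm_eq_abs, abs_of_nonneg (by positivity)]
  rw [h3]
  have h4 : 1 / 4 ≤ ‖1 + (-(p.1 / p.2)) / (m : ℂ)‖ ^ 2 * ‖p.2‖ ^ 2 := by
    have h5 : 1 / 4 ≤ ‖1 + (-(p.1 / p.2)) / (m : ℂ)‖ ^ 2 := by nlinarith
    have h6 : (1 : ℝ) ≤ ‖p.2‖ ^ 2 := one_le_pow₀ h2
    nlinarith
  rw [div_le_iff₀ (by linarith)]
  have h7 := norm_sq_div (qq m (p.1 / p.2))
  have h8 : 0 ≤ |phi p.1| * ca p.2 := mul_nonneg (abs_nonneg _) (ca_nonneg _)
  calc |phi p.1| * ca p.2 * ‖qq m (p.1 / p.2) ^ 2 / ((‖qq m (p.1 / p.2)‖ ^ 2 : ℝ) : ℂ)‖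
      ≤ |phi p.1| * ca p.2 * 1 := mul_le_mul_of_nonneg_left h7 h8
    _ ≤ _ := by nlinarith

lemma Fm_meas (m : ℕ) : Measurable (Fm m) := by
  have hs : Measurable (fun p : ℂ × ℂ => p.1 / p.2) := measurable_fst.div measurable_snd
  have hd : Measurable (fun p : ℂ × ℂ => 1 + (-(p.1 / p.2)) / (m : ℂ)) :=
    (hs.neg.div_const _).const_add _
  have hq : Measurable (fun p : ℂ × ℂ => qq m (p.1 / p.2)) := hd.pow_const m
  exact (((Complex.measurable_ofReal.comp (phi_meas.comp measurable_fst)).mul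
    (Complex.measurable_ofReal.comp (ca_meas.comp measurable_snd))).mul
    ((hq.pow_const 2).div (Complex.measurable_ofReal.comp (hq.norm.pow_const 2)))).div
    (Complex.measurable_ofReal.comp ((hd.norm.pow_const 2).mul (measurable_snd.norm.pow_const 2)))

lemma dom_int : Integrable (fun p : ℂ × ℂ => 4 * (|phi p.1| * ca p.2)) :=
  (phi_int.abs.mul_prod ca_int).const_mul 4

lemma Fm_int {m : ℕ} (hm : 2 ≤ m) : Integrable (Fm m) :=
  Integrable.mono' dom_int (Fm_meas m).aestronglyMeasurable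
    (Eventually.of_forall fun p => Fm_norm hm p)

lemma ann_scale {m : ℕ} (hm : 2 ≤ m) (z : ℂ) : (m : ℝ) • z ∈ ann m ↔ z ∈ ann 1 := by
  have h2 : (2 : ℝ) ≤ m := by exact_mod_cast hm
  have h0 : (0 : ℝ) < m := by linarith
  have h1 : ‖(m : ℝ) • z‖ = m * ‖z‖ := by
    rw [norm_smul, Real.norm_eq_abs, abs_of_pos h0]
  constructor
  · rintro ⟨h3, h4⟩
    rw [h1] at h3 h4
    refine ⟨?_, ?_⟩
    · have : (m : ℝ) * 1 ≤ m * ‖z‖ := by linarith
      have := le_of_mul_le_mul_left this h0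
      simpa using this
    · have : (m : ℝ) * ‖z‖ < m * 2 := by linarith
      have := lt_of_mul_lt_mul_left this h0.le
      simpa using this
  · rintro ⟨h3, h4⟩
    have h5 : (1 : ℝ) ≤ ‖z‖ := by simpa using h3
    have h6 : ‖z‖ < 2 := by simpa using h4
    refine ⟨?_, ?_⟩
    · rw [h1]
      nlinarith
    · rw [h1]
      nlinarith

/-- the scaling identity of the integrands -/
lemma scaled_eq {m : ℕ} (hm : 2 ≤ m) (x z : ℂ) :
    ((m ^ 2 : ℝ) : ℂ) * (wtc (bm m (-(2 * m))) (x, (m : ℝ) • z) *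
      ch (2 * m) (Complex.arg (x - (m : ℝ) • z))) = Fm m (x, z) := by
  have h2 : (2 : ℝ) ≤ m := by exact_mod_cast hm
  have h0 : (0 : ℝ) < m := by linarith
  by_cases hx : x ∈ ball (0 : ℂ) 1
  swap
  · unfold Fm wtc
    simp only [phi_out hx]
    simp
  by_cases hz : z ∈ ann 1
  swap
  · have hz' : (m : ℝ) • z ∉ ann m := fun h => hz ((ann_scale hm z).1 h)
    unfold Fm wtc
    simp only [ca_out hz]
    rw [bm, Set.indicator_of_notMem hz']
    simp
  have hz' := (ann_scale hm z).2 hz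
  have hz0 : z ≠ 0 := by
    rintro rfl
    have := one_le_of_ann hz
    rw [norm_zero] at this
    linarith
  have hmC : (m : ℂ) ≠ 0 := by
    have : (m : ℝ) ≠ 0 := h0.ne'
    exact_mod_cast this
  set s := x / z with hs
  set d := 1 + (-s) / (m : ℂ) with hd
  have hdb := den_bound hm (s_bound hx hz)
  have hd0 : d ≠ 0 := by
    intro h
    rw [← hs, ← hd, h, norm_zero] at hdb
    linarith
  have hw : x - (m : ℝ) • z = -((m : ℝ) • (z * d)) := by
    rw [hd, hs, Complex.real_smul, Complex.real_smul, Complex.ofReal_natCast]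
    field_simp
    ring
  have hw0 : x - (m : ℝ) • z ≠ 0 := by
    rw [hw, neg_ne_zero, Complex.real_smul, Complex.ofReal_natCast]
    exact mul_ne_zero hmC (mul_ne_zero hz0 hd0)
  have hnw : ‖x - (m : ℝ) • z‖ = m * (‖z‖ * ‖d‖) := by
    rw [hw, norm_neg, norm_smul, Real.norm_eq_abs, abs_of_pos h0, norm_mul]
  have hzn : (‖z‖ : ℂ) ≠ 0 := by
    rw [Complex.ofReal_ne_zero]
    exact norm_ne_zero_iff.2 hz0
  have hdn : (‖d‖ : ℂ) ≠ 0 := by
    rw [Complex.ofReal_ne_zero]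
    exact norm_ne_zero_iff.2 hd0
  -- signs
  have hu1 : ((m : ℝ) • z) / (‖(m : ℝ) • z‖ : ℂ) = z / (‖z‖ : ℂ) := by
    rw [norm_smul, Real.norm_eq_abs, abs_of_pos h0, Complex.real_smul]
    push_cast
    field_simp
  have hu2 : (x - (m : ℝ) • z) / (‖x - (m : ℝ) • z‖ : ℂ)
      = -((z / (‖z‖ : ℂ)) * (d / (‖d‖ : ℂ))) := by
    rw [hnw, hw, Complex.real_smul]
    push_cast
    field_simp
  have hch : ch (2 * m) (Complex.arg (x - (m : ℝ) • z))
      = (z / (‖z‖ : ℂ)) ^ (2 * m) * (d / (‖d‖ : ℂ)) ^ (2 * m) := by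
    rw [ch_arg _ hw0, hu2]
    have : ((2 : ℤ) * (m : ℤ)) = ((2 * m : ℕ) : ℤ) := by push_cast; ring
    rw [this, zpow_natCast, neg_pow, mul_pow, pow_mul (-1 : ℂ)]
    simp
  have hbm : bm m (-(2 * m)) ((m : ℝ) • z) = ((z / (‖z‖ : ℂ)) ^ (2 * m))⁻¹ := by
    rw [bm, Set.indicator_of_mem hz', hu1, zpow_neg]
    norm_cast
  have huz : (z / (‖z‖ : ℂ)) ^ (2 * m) ≠ 0 := pow_ne_zero _ (div_ne_zero hz0 hzn)
  have hq : (d / (‖d‖ : ℂ)) ^ (2 * m) = qq m s ^ 2 / ((‖qq m s‖ ^ 2 : ℝ) : ℂ) := by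
    have hqd : qq m s = d ^ m := rfl
    rw [hqd, norm_pow]
    push_cast
    rw [div_pow, mul_comm 2 m, pow_mul, pow_mul]
  unfold wtc Fm
  simp only
  rw [hch, hbm, hq, hnw, ca_in hz, ← hs, ← hd]
  push_cast
  field_simp

/-- the main coefficient as an integral over a fixed region -/
lemma GG_eq {m : ℕ} (hm : 2 ≤ m) : GG m = ∫ p : ℂ × ℂ, Fm m p := by
  have h2 : (2 : ℝ) ≤ m := by exact_mod_cast hm
  have h0 : (0 : ℝ) < m := by linarith
  have hF := wtc_mul_int (bm_adm m hm (-(2 * m))) (ch (2 * m))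
  unfold GG TT
  rw [Measure.volume_eq_prod, integral_prod _ (by rw [← Measure.volume_eq_prod]; exact hF),
    integral_prod _ (by rw [← Measure.volume_eq_prod]; exact Fm_int hm)]
  refine integral_congr_ae (Eventually.of_forall fun x => ?_)
  simp only
  have h3 := Measure.integral_comp_smul (volume : Measure ℂ)
    (fun z => wtc (bm m (-(2 * m))) (x, z) * ch (2 * m) (Complex.arg (x - z))) (m : ℝ)
  rw [Complex.finrank_real_complex, abs_of_pos (by positivity)] at h3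
  have h4 : ∫ z, Fm m (x, z) = ((m ^ 2 : ℝ) : ℂ) * ∫ z : ℂ, (wtc (bm m (-(2 * m))) (x, (m : ℝ) • z) *
      ch (2 * m) (Complex.arg (x - (m : ℝ) • z))) := by
    rw [← integral_const_mul]
    exact integral_congr_ae (Eventually.of_forall fun z => (scaled_eq hm x z).symm)
  rw [h4, h3, Complex.real_smul, ← mul_assoc, ← Complex.ofReal_mul,
    mul_inv_cancel₀ (by positivity), Complex.ofReal_one, one_mul]

/-- convergence of the main coefficients -/
lemma GG_tendsto : Tendsto GG atTop (𝓝 (∫ p : ℂ × ℂ, Fi p)) := by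
  have h1 : Tendsto (fun m : ℕ => ∫ p : ℂ × ℂ, Fm m p) atTop (𝓝 (∫ p : ℂ × ℂ, Fi p)) := by
    refine tendsto_integral_filter_of_dominated_convergence
      (fun p : ℂ × ℂ => 4 * (|phi p.1| * ca p.2))
      (Eventually.of_forall fun m => (Fm_meas m).aestronglyMeasurable)
      ((eventually_ge_atTop 2).mono fun m hm => Eventually.of_forall fun p => Fm_norm hm p)
      dom_int (Eventually.of_forall fun p => ?_)
    by_cases hz : p.2 ∈ ann 1
    swap
    · have h2 : ∀ m, Fm m p = 0 := by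
        intro m
        unfold Fm
        rw [ca_out hz]
        simp
      have h3 : Fi p = 0 := by
        unfold Fi
        rw [ca_out hz]
        simp
      simp only [h2, h3]
      exact tendsto_const_nhds
    have hz1 := one_le_of_ann hz
    set s := p.1 / p.2 with hs
    have hq : Tendsto (fun m : ℕ => qq m s) atTop (𝓝 (Complex.exp (-s))) :=
      Complex.tendsto_one_add_div_pow_exp (-s)
    have hd : Tendsto (fun m : ℕ => 1 + (-s) / (m : ℂ)) atTop (𝓝 1) := by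
      have h4 := (tendsto_const_div_atTop_nhds_zero_nat (𝕜 := ℂ) (-s)).const_add (1 : ℂ)
      rwa [add_zero] at h4
    unfold Fm Fi
    rw [← hs]
    have hden : Tendsto (fun m : ℕ => (((‖1 + (-s) / (m : ℂ)‖ ^ 2 * ‖p.2‖ ^ 2 : ℝ)) : ℂ)) atTop
        (𝓝 (((‖p.2‖ ^ 2 : ℝ)) : ℂ)) := by
      have h5 : Tendsto (fun m : ℕ => ‖1 + (-s) / (m : ℂ)‖ ^ 2 * ‖p.2‖ ^ 2) atTop
          (𝓝 (‖(1 : ℂ)‖ ^ 2 * ‖p.2‖ ^ 2)) := (hd.norm.pow 2).mul_const _
      rw [norm_one, one_pow, one_mul] at h5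
      exact (Complex.continuous_ofReal.tendsto _).comp h5
    have hne : (((‖p.2‖ ^ 2 : ℝ)) : ℂ) ≠ 0 := by
      rw [Complex.ofReal_ne_zero]
      positivity
    have hqn : Tendsto (fun m : ℕ => ((‖qq m s‖ ^ 2 : ℝ) : ℂ)) atTop
        (𝓝 ((‖Complex.exp (-s)‖ ^ 2 : ℝ) : ℂ)) :=
      (Complex.continuous_ofReal.tendsto _).comp (hq.norm.pow 2)
    have hqne : ((‖Complex.exp (-s)‖ ^ 2 : ℝ) : ℂ) ≠ 0 := by
      rw [Complex.ofReal_ne_zero]
      exact pow_ne_zero _ (norm_ne_zero_iff.2 (Complex.exp_ne_zero _))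
    exact (((hq.pow 2).div hqn hqne).const_mul _).div hden hne
  refine h1.congr' ?_
  filter_upwards [eventually_ge_atTop 2] with m hm
  exact (GG_eq hm).symm

end Pool.Agent.Y499.RK
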