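import Pool.Agent.Y499.RK.Lim

/-!
Positivity of the limit coefficient.
-/

set_option autoImplicit false
open MeasureTheory Filter Topology Metric

namespace Pool.Agent.Y499.RK

lemma Fi_norm (p : ℂ × ℂ) : ‖Fi p‖ ≤ 4 * (|phi p.1| * ca p.2) := by
  by_cases hz : p.2 ∈ ann 1
  swap
  · unfold Fi
    rw [ca_out hz]
    simp
  have h2 := one_le_of_ann hz
  unfold Fi
  rw [norm_div, norm_mul, norm_mul, Complex.norm_real, Complex.norm_real, Real.norm_eq_abs,
    Real.norm_eq_abs, abs_of_nonneg (ca_nonneg _)]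
  have h3 : ‖(((‖p.2‖ ^ 2 : ℝ)) : ℂ)‖ = ‖p.2‖ ^ 2 := by
    rw [Complex.norm_real, Real.norm_eq_abs, abs_of_nonneg (by positivity)]
  rw [h3]
  have h6 : (1 : ℝ) ≤ ‖p.2‖ ^ 2 := one_le_pow₀ h2
  rw [div_le_iff₀ (by linarith)]
  have h7 := norm_sq_div (Complex.exp (-(p.1 / p.2)))
  have h8 : 0 ≤ |phi p.1| * ca p.2 := mul_nonneg (abs_nonneg _) (ca_nonneg _)
  calc |phi p.1| * ca p.2 *
      ‖Complex.exp (-(p.1 / p.2)) ^ 2 / ((‖Complex.exp (-(p.1 / p.2))‖ ^ 2 : ℝ) : ℂ)‖
      ≤ |phi p.1| * ca p.2 * 1 := mul_le_mul_of_nonneg_left h7 h8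
    _ ≤ _ := by nlinarith

lemma Fi_meas : Measurable Fi := by
  have hs : Measurable (fun p : ℂ × ℂ => p.1 / p.2) := measurable_fst.div measurable_snd
  have hq : Measurable (fun p : ℂ × ℂ => Complex.exp (-(p.1 / p.2))) :=
    Complex.measurable_exp.comp hs.neg
  exact (((Complex.measurable_ofReal.comp (phi_meas.comp measurable_fst)).mul
    (Complex.measurable_ofReal.comp (ca_meas.comp measurable_snd))).mul
    ((hq.pow_const 2).div (Complex.measurable_ofReal.comp (hq.norm.pow_const 2)))).div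
    (Complex.measurable_ofReal.comp (measurable_snd.norm.pow_const 2))

lemma Fi_int : Integrable Fi :=
  Integrable.mono' dom_int Fi_meas.aestronglyMeasurable
    (Eventually.of_forall fun p => Fi_norm p)

lemma exp_sq_div (s : ℂ) :
    (Complex.exp (-s) ^ 2 / ((‖Complex.exp (-s)‖ ^ 2 : ℝ) : ℂ)).re = Real.cos (2 * s.im) := by
  rw [Complex.norm_exp, ← Real.exp_nat_mul, ← Complex.exp_nat_mul, Complex.ofReal_exp,
    ← Complex.exp_sub]
  have : ((2 : ℕ) : ℂ) * (-s) - (((2 : ℕ) : ℝ) * (-s).re : ℝ) = ((-(2 * s.im) : ℝ) : ℂ) * Complex.I := by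
    apply Complex.ext
    · simp
    · simp
  rw [this, Complex.exp_ofReal_mul_I_re, Real.cos_neg]

lemma Fi_re (p : ℂ × ℂ) :
    (Fi p).re = (ca p.2 / ‖p.2‖ ^ 2) * (phi p.1 * Real.cos (2 * (p.1 / p.2).im)) := by
  unfold Fi
  rw [← exp_sq_div, Complex.div_ofReal_re, ← Complex.ofReal_mul, Complex.re_ofReal_mul]
  ring

lemma cos_diff_pos {t : ℝ} (ht : |t| ≤ 1) (h0 : t ≠ 0) : 0 < Real.cos t - Real.cos (2 * t) := by
  have h1 := Real.cos_pos_of_le_one ht
  have h2 : Real.cos t < 1 := by
    have h3 := Real.cos_le_one_sub_mul_cos_sq (x := t) (ht.trans (by linarith [Real.pi_gt_three]))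
    have h4 : 0 < 2 / Real.pi ^ 2 * t ^ 2 := by
      have := Real.pi_pos
      positivity
    linarith
  rw [Real.cos_two_mul]
  nlinarith

lemma cos_diff_nonneg {t : ℝ} (ht : |t| ≤ 1) : 0 ≤ Real.cos t - Real.cos (2 * t) := by
  rcases eq_or_ne t 0 with rfl | h0
  · simp
  · exact (cos_diff_pos ht h0).le

/-- the inner integral -/
lemma inner_eq (z : ℂ) : ∫ x, phi x * Real.cos (2 * (x / z).im)
    = ∫ x, (ball (0 : ℂ) 1).indicator
        (fun x => Real.cos (x / z).im - Real.cos (2 * (x / z).im)) x := by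
  have hc : ∀ k : ℝ, Continuous (fun x : ℂ => Real.cos (k * (x / z).im)) := fun k =>
    Real.continuous_cos.comp (continuous_const.mul (Complex.continuous_im.comp
      (continuous_id.div_const z)))
  have hi : ∀ k r : ℝ, Integrable ((ball (0 : ℂ) r).indicator
      (fun x : ℂ => Real.cos (k * (x / z).im))) := by
    intro k r
    rw [integrable_indicator_iff measurableSet_ball]
    refine Measure.integrableOn_of_bounded (M := 1) measure_ball_lt_top.ne
      (hc k).measurable.aestronglyMeasurable (Eventually.of_forall fun y => ?_)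
    rw [Real.norm_eq_abs]
    exact Real.abs_cos_le_one _
  have h1 : ∫ x, phi x * Real.cos (2 * (x / z).im)
      = 4 * (∫ x, (ball (0 : ℂ) (1 / 2)).indicator (fun x : ℂ => Real.cos (2 * (x / z).im)) x)
        - ∫ x, (ball (0 : ℂ) 1).indicator (fun x : ℂ => Real.cos (2 * (x / z).im)) x := by
    rw [← integral_const_mul, ← integral_sub ((hi 2 (1 / 2)).const_mul 4) (hi 2 1)]
    refine integral_congr_ae (Eventually.of_forall fun x => ?_)
    simp only [phi]
    by_cases h2 : x ∈ ball (0 : ℂ) (1 / 2) <;> by_cases h3 : x ∈ ball (0 : ℂ) 1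
    · rw [Set.indicator_of_mem h2, Set.indicator_of_mem h3, Set.indicator_of_mem h2,
        Set.indicator_of_mem h3]
      ring
    · rw [Set.indicator_of_mem h2, Set.indicator_of_notMem h3, Set.indicator_of_mem h2,
        Set.indicator_of_notMem h3]
      ring
    · rw [Set.indicator_of_notMem h2, Set.indicator_of_mem h3, Set.indicator_of_notMem h2,
        Set.indicator_of_mem h3]
      ring
    · rw [Set.indicator_of_notMem h2, Set.indicator_of_notMem h3, Set.indicator_of_notMem h2,
        Set.indicator_of_notMem h3]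
      ring
  have h2 := Measure.integral_comp_smul (volume : Measure ℂ)
    ((ball (0 : ℂ) (1 / 2)).indicator (fun x : ℂ => Real.cos (2 * (x / z).im))) (1 / 2 : ℝ)
  rw [Complex.finrank_real_complex] at h2
  have h3 : |((1 / 2 : ℝ) ^ 2)⁻¹| = 4 := by
    rw [abs_of_pos (by positivity)]
    norm_num
  rw [h3, smul_eq_mul] at h2
  rw [h1, ← h2]
  have h4 : ∀ x : ℂ, (ball (0 : ℂ) (1 / 2)).indicator (fun x : ℂ => Real.cos (2 * (x / z).im))
      ((1 / 2 : ℝ) • x) = (ball (0 : ℂ) 1).indicator (fun x : ℂ => Real.cos (1 * (x / z).im)) x := by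
    intro x
    have h5 : (1 / 2 : ℝ) • x ∈ ball (0 : ℂ) (1 / 2) ↔ x ∈ ball (0 : ℂ) 1 := by
      rw [mem_ball_zero_iff, mem_ball_zero_iff, norm_smul]
      rw [Real.norm_eq_abs, abs_of_pos (by norm_num : (0 : ℝ) < 1 / 2)]
      constructor <;> intro h <;> linarith
    by_cases h6 : x ∈ ball (0 : ℂ) 1
    · rw [Set.indicator_of_mem h6, Set.indicator_of_mem (h5.2 h6)]
      have h7 : ((1 / 2 : ℝ) • x / z).im = (1 / 2) * (x / z).im := by
        rw [Complex.real_smul, mul_div_assoc, Complex.im_ofReal_mul]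
      rw [h7]
      congr 1
      ring
    · rw [Set.indicator_of_notMem h6, Set.indicator_of_notMem (fun h => h6 (h5.1 h))]
  simp only [h4]
  rw [← integral_sub (hi 1 1) (hi 2 1)]
  refine integral_congr_ae (Eventually.of_forall fun x => ?_)
  simp only
  by_cases h3 : x ∈ ball (0 : ℂ) 1
  · rw [Set.indicator_of_mem h3, Set.indicator_of_mem h3, Set.indicator_of_mem h3, one_mul]
  · rw [Set.indicator_of_notMem h3, Set.indicator_of_notMem h3, Set.indicator_of_notMem h3,
      sub_zero]

lemma inner_pos {z : ℂ} (hz : z ∈ ann 1) : 0 < ∫ x, phi x * Real.cos (2 * (x / z).im) := by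
  have hz1 := one_le_of_ann hz
  have hz0 : z ≠ 0 := by
    rintro rfl
    rw [norm_zero] at hz1
    linarith
  rw [inner_eq]
  have hcont : Continuous (fun x : ℂ => Real.cos (x / z).im - Real.cos (2 * (x / z).im)) := by
    have h1 : Continuous (fun x : ℂ => (x / z).im) :=
      Complex.continuous_im.comp (continuous_id.div_const z)
    exact (Real.continuous_cos.comp h1).sub (Real.continuous_cos.comp (continuous_const.mul h1))
  have htb : ∀ x ∈ ball (0 : ℂ) 1, |(x / z).im| ≤ 1 := fun x hx =>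
    (Complex.abs_im_le_norm _).trans (s_bound hx hz)
  have hint : Integrable ((ball (0 : ℂ) 1).indicator
      (fun x => Real.cos (x / z).im - Real.cos (2 * (x / z).im))) := by
    rw [integrable_indicator_iff measurableSet_ball]
    refine Measure.integrableOn_of_bounded (M := 2) measure_ball_lt_top.ne
      hcont.measurable.aestronglyMeasurable (Eventually.of_forall fun y => ?_)
    rw [Real.norm_eq_abs]
    refine (abs_sub _ _).trans ?_
    have h1 := Real.abs_cos_le_one (y / z).im
    have h2 := Real.abs_cos_le_one (2 * (y / z).im)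
    linarith
  have hnn : 0 ≤ (ball (0 : ℂ) 1).indicator
      (fun x => Real.cos (x / z).im - Real.cos (2 * (x / z).im)) := by
    intro x
    exact Set.indicator_nonneg (fun y hy => cos_diff_nonneg (htb y hy)) x
  rw [integral_pos_iff_support_of_nonneg hnn hint]
  have hU : IsOpen (ball (0 : ℂ) 1 ∩ {x : ℂ | (x / z).im ≠ 0}) := by
    refine isOpen_ball.inter ?_
    exact isOpen_ne_fun (Complex.continuous_im.comp (continuous_id.div_const z)) continuous_const
  have hne : (ball (0 : ℂ) 1 ∩ {x : ℂ | (x / z).im ≠ 0}).Nonempty := by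
    refine ⟨(((2 * ‖z‖)⁻¹ : ℝ) : ℂ) * Complex.I * z, ?_, ?_⟩
    · rw [mem_ball_zero_iff, norm_mul, norm_mul, Complex.norm_real, Complex.norm_I, Real.norm_eq_abs,
        abs_of_nonneg (by positivity)]
      have : (2 * ‖z‖)⁻¹ * 1 * ‖z‖ = 1 / 2 := by
        have : ‖z‖ ≠ 0 := by positivity
        field_simp
      rw [this]
      norm_num
    · show ((((2 * ‖z‖)⁻¹ : ℝ) : ℂ) * Complex.I * z / z).im ≠ 0
      rw [mul_div_assoc, div_self hz0, mul_one, Complex.im_ofReal_mul, Complex.I_im, mul_one]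
      have : 0 < ‖z‖ := by linarith
      positivity
  refine lt_of_lt_of_le (hU.measure_pos volume hne) (measure_mono ?_)
  rintro x ⟨hx, hx2⟩
  rw [Function.mem_support, Set.indicator_of_mem hx]
  exact (cos_diff_pos (htb x hx) hx2).ne'

/-- the limit coefficient has positive real part -/
theorem limit_pos : 0 < (∫ p : ℂ × ℂ, Fi p).re := by
  have hre : (∫ p : ℂ × ℂ, Fi p).re = ∫ p : ℂ × ℂ, (Fi p).re := by
    have := integral_re (𝕜 := ℂ) Fi_int
    exact this.symm
  have hri : Integrable (fun p : ℂ × ℂ => (Fi p).re) := Fi_int.re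
  rw [hre, Measure.volume_eq_prod, integral_prod_symm _ (by rw [← Measure.volume_eq_prod]; exact hri)]
  have hri' : Integrable (fun y : ℂ => ∫ x : ℂ, (Fi (x, y)).re) := by
    rw [Measure.volume_eq_prod] at hri
    exact hri.integral_prod_right
  have hval : ∀ z : ℂ, ∫ x : ℂ, (Fi (x, z)).re
      = (ca z / ‖z‖ ^ 2) * ∫ x, phi x * Real.cos (2 * (x / z).im) := by
    intro z
    rw [← integral_const_mul]
    exact integral_congr_ae (Eventually.of_forall fun x => Fi_re (x, z))
  have hnn : 0 ≤ fun z : ℂ => ∫ x : ℂ, (Fi (x, z)).re := by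
    intro z
    simp only [Pi.zero_apply]
    rw [hval]
    by_cases hz : z ∈ ann 1
    · exact mul_nonneg (div_nonneg (ca_nonneg _) (by positivity)) (inner_pos hz).le
    · rw [ca_out hz]
      simp
  rw [integral_pos_iff_support_of_nonneg hnn hri']
  have hne : (ball (3 / 2 : ℂ) (1 / 4)).Nonempty := ⟨3 / 2, mem_ball_self (by norm_num)⟩
  refine lt_of_lt_of_le (isOpen_ball.measure_pos volume hne) (measure_mono ?_)
  intro z hz
  have h32 : ‖(3 / 2 : ℂ)‖ = 3 / 2 := by
    rw [norm_div]
    norm_num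
  rw [mem_ball, dist_eq_norm] at hz
  have h1 : ‖z‖ < 2 := by
    have := norm_sub_norm_le z (3 / 2)
    rw [h32] at this
    linarith
  have h2 : 1 ≤ ‖z‖ := by
    have := norm_sub_norm_le (3 / 2) z
    rw [h32, norm_sub_rev] at this
    linarith
  have hza : z ∈ ann 1 := ⟨by simpa using h2, by simpa using h1⟩
  rw [Function.mem_support, hval, ca_in hza]
  have h3 := inner_pos hza
  have h4 : 0 < ‖z‖ := by linarith
  positivity

/-- from some point on the main coefficients have real part at least a fixed positive number -/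
theorem GG_lower : ∃ D : ℝ, 0 < D ∧ ∃ m0 : ℕ, 2 ≤ m0 ∧ ∀ m, m0 ≤ m → D ≤ (GG m).re := by
  refine ⟨(∫ p : ℂ × ℂ, Fi p).re / 2, by have := limit_pos; positivity, ?_⟩
  have h1 : Tendsto (fun m => (GG m).re) atTop (𝓝 (∫ p : ℂ × ℂ, Fi p).re) :=
    (Complex.continuous_re.tendsto _).comp GG_tendsto
  have h2 := h1.eventually (eventually_ge_nhds (half_lt_self limit_pos))
  obtain ⟨m1, hm1⟩ := (h2.and (eventually_ge_atTop 2)).exists_forall_of_atTop
  refine ⟨max m1 2, le_max_right _ _, fun m hm => (hm1 m ((le_max_left _ _).trans hm)).1⟩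

end Pool.Agent.Y499.RK
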