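import Pool.Agent.Y499.RK.Pos

/-!
Riesz products with imaginary coefficients in the Banach space of angular functions.
-/

set_option autoImplicit false
open MeasureTheory Filter Topology Metric

namespace Pool.Agent.Y499.RK

/-- the scales -/
def mj (m0 j : ℕ) : ℕ := m0 * 4 ^ j

lemma mj_succ (m0 j : ℕ) : mj m0 (j + 1) = 4 * mj m0 j := by
  unfold mj
  rw [pow_succ]
  ring

lemma mj_le (m0 : ℕ) {i j : ℕ} (h : i ≤ j) : mj m0 i ≤ mj m0 j :=
  Nat.mul_le_mul_left _ (Nat.pow_le_pow_right (by norm_num) h)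

lemma mj_ge (m0 j : ℕ) : m0 ≤ mj m0 j := Nat.le_mul_of_pos_right _ (by positivity)

lemma mj_lt (m0 : ℕ) {i j : ℕ} (h : i < j) : 4 * mj m0 i ≤ mj m0 j := by
  rw [← mj_succ]
  exact mj_le m0 h

/-- the span of characters with given frequencies -/
noncomputable def VV (S : Set ℤ) : Submodule ℂ EB := Submodule.span ℂ (ch '' S)

lemma ch_mem {S : Set ℤ} {ν : ℤ} (h : ν ∈ S) : ch ν ∈ VV S :=
  Submodule.subset_span ⟨ν, h, rfl⟩

lemma VV_mono {S R : Set ℤ} (h : S ⊆ R) : VV S ≤ VV R :=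
  Submodule.span_mono (Set.image_mono h)

lemma cs_mem {S : Set ℤ} {n : ℤ} (h : n ∈ S) (h' : -n ∈ S) : cs n ∈ VV S :=
  Submodule.smul_mem _ _ (Submodule.add_mem _ (ch_mem h) (ch_mem h'))

lemma cs_mul_mem {S R : Set ℤ} {n : ℤ} (h : ∀ ν ∈ S, n + ν ∈ R ∧ -n + ν ∈ R) {x : EB}
    (hx : x ∈ VV S) : cs n * x ∈ VV R := by
  unfold VV at hx
  induction hx using Submodule.span_induction with
  | mem y hy =>
    obtain ⟨ν, hν, rfl⟩ := hy
    have : cs n * ch ν = (1 / 2 : ℂ) • (ch (n + ν) + ch (-n + ν)) := by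
      unfold cs
      rw [smul_mul_assoc, add_mul, ch_mul, ch_mul]
    rw [this]
    exact Submodule.smul_mem _ _ (Submodule.add_mem _ (ch_mem (h ν hν).1) (ch_mem (h ν hν).2))
  | zero => rw [mul_zero]; exact Submodule.zero_mem _
  | add y z _ _ hy hz => rw [mul_add]; exact Submodule.add_mem _ hy hz
  | smul c y _ hy => rw [mul_smul_comm]; exact Submodule.smul_mem _ _ hy

lemma vanish_VV {S : Set ℤ} (F : EB →L[ℂ] ℂ) (h : ∀ ν ∈ S, F (ch ν) = 0) {x : EB}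
    (hx : x ∈ VV S) : F x = 0 := by
  unfold VV at hx
  induction hx using Submodule.span_induction with
  | mem y hy =>
    obtain ⟨ν, hν, rfl⟩ := hy
    exact h ν hν
  | zero => exact map_zero F
  | add y z _ _ hy hz => rw [map_add, hy, hz, add_zero]
  | smul c y _ hy => rw [map_smul, hy, smul_zero]

/-- frequencies of the products -/
def SS (m0 j : ℕ) : Set ℤ := {ν | ν ≠ 0 ∧ -(2 * (mj m0 j : ℤ)) < 3 * ν ∧ 3 * ν < 2 * (mj m0 j : ℤ)}

/-- frequencies of the mixed terms -/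
def RR (m0 j : ℕ) : Set ℤ :=
  {κ | ∃ ν ∈ SS m0 j, κ = 2 * (mj m0 j : ℤ) + ν ∨ κ = -(2 * (mj m0 j : ℤ)) + ν}

/-- the Riesz products -/
noncomputable def PP (m0 : ℕ) (a : ℝ) : ℕ → EB
  | 0 => 1
  | (j + 1) => PP m0 a j * (1 + ((a : ℂ) * Complex.I) • cs (2 * (mj m0 j : ℤ)))

lemma PP_succ (m0 : ℕ) (a : ℝ) (j : ℕ) : PP m0 a (j + 1) = PP m0 a j
    + ((a : ℂ) * Complex.I) • cs (2 * (mj m0 j : ℤ))
    + ((a : ℂ) * Complex.I) • (cs (2 * (mj m0 j : ℤ)) * (PP m0 a j - 1)) := by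
  have h : PP m0 a (j + 1)
      = PP m0 a j * (1 + ((a : ℂ) * Complex.I) • cs (2 * (mj m0 j : ℤ))) := rfl
  rw [h, mul_add, mul_one, mul_smul_comm, add_assoc, ← smul_add, mul_sub, mul_one,
    add_sub_cancel, mul_comm (PP m0 a j)]

lemma PP_mem (m0 : ℕ) (hm0 : 2 ≤ m0) (a : ℝ) (j : ℕ) : PP m0 a j - 1 ∈ VV (SS m0 j) := by
  induction j with
  | zero =>
    have : PP m0 a 0 - 1 = 0 := by
      have h : PP m0 a 0 = 1 := rfl
      rw [h, sub_self]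
    rw [this]
    exact Submodule.zero_mem _
  | succ j ih =>
    have hA := mj_succ m0 j
    have hge := mj_ge m0 j
    rw [PP_succ]
    have h1 : PP m0 a j + ((a : ℂ) * Complex.I) • cs (2 * (mj m0 j : ℤ))
        + ((a : ℂ) * Complex.I) • (cs (2 * (mj m0 j : ℤ)) * (PP m0 a j - 1)) - 1
        = (PP m0 a j - 1) + (((a : ℂ) * Complex.I) • cs (2 * (mj m0 j : ℤ))
        + ((a : ℂ) * Complex.I) • (cs (2 * (mj m0 j : ℤ)) * (PP m0 a j - 1))) := by abel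
    rw [h1]
    refine Submodule.add_mem _ ?_ (Submodule.add_mem _ ?_ ?_)
    · refine VV_mono ?_ ih
      rintro ν ⟨h2, h3, h4⟩
      refine ⟨h2, ?_, ?_⟩ <;> omega
    · refine Submodule.smul_mem _ _ (cs_mem ?_ ?_)
      · refine ⟨?_, ?_, ?_⟩ <;> omega
      · refine ⟨?_, ?_, ?_⟩ <;> omega
    · refine Submodule.smul_mem _ _ (cs_mul_mem (fun ν hν => ?_) ih)
      obtain ⟨h2, h3, h4⟩ := hν
      constructor <;> refine ⟨?_, ?_, ?_⟩ <;> omega

lemma mixed_mem (m0 : ℕ) (hm0 : 2 ≤ m0) (a : ℝ) (j : ℕ) :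
    cs (2 * (mj m0 j : ℤ)) * (PP m0 a j - 1) ∈ VV (RR m0 j) :=
  cs_mul_mem (S := SS m0 j) (R := RR m0 j)
    (fun ν hν => ⟨⟨ν, hν, Or.inl rfl⟩, ⟨ν, hν, Or.inr rfl⟩⟩) (PP_mem m0 hm0 a j)

/-- the functional of one annulus -/
noncomputable def F1 (m0 : ℕ) (hm0 : 2 ≤ m0) (i : ℕ) : EB →L[ℂ] ℂ :=
  TL (fun z => ((fm (mj m0 i) z : ℝ) : ℂ)) (fm_admC (mj m0 i) (hm0.trans (mj_ge m0 i)))

lemma F1_ch (m0 : ℕ) (hm0 : 2 ≤ m0) (i : ℕ) (ν : ℤ) (h1 : ν ≠ 2 * (mj m0 i : ℤ))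
    (h2 : ν ≠ -(2 * (mj m0 i : ℤ))) : F1 m0 hm0 i (ch ν) = 0 := by
  unfold F1
  rw [TL_apply]
  exact TT_fm_ch _ (hm0.trans (mj_ge m0 i)) ν h1 h2

lemma F1_mixed (m0 : ℕ) (hm0 : 2 ≤ m0) (a : ℝ) (i j : ℕ) :
    F1 m0 hm0 i (cs (2 * (mj m0 j : ℤ)) * (PP m0 a j - 1)) = 0 := by
  refine vanish_VV _ ?_ (mixed_mem m0 hm0 a j)
  rintro κ ⟨ν, ⟨h2, h3, h4⟩, h5⟩
  have hgi := mj_ge m0 i
  have hgj := mj_ge m0 j
  rcases lt_trichotomy i j with h | h | h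
  · have h6 := mj_lt m0 h
    refine F1_ch m0 hm0 i κ ?_ ?_ <;> omega
  · subst h
    refine F1_ch m0 hm0 i κ ?_ ?_ <;> omega
  · have h6 := mj_lt m0 h
    refine F1_ch m0 hm0 i κ ?_ ?_ <;> omega

lemma F1_cs (m0 : ℕ) (hm0 : 2 ≤ m0) (i j : ℕ) : F1 m0 hm0 i (cs (2 * (mj m0 j : ℤ)))
    = if i = j then (1 / 2 : ℂ) * ((GG (mj m0 i)).re : ℂ) else 0 := by
  by_cases hij : i = j
  · subst hij
    rw [if_pos rfl]
    exact TT_fm_cs _ (hm0.trans (mj_ge m0 i))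
  · rw [if_neg hij]
    have hgi := mj_ge m0 i
    have hgj := mj_ge m0 j
    unfold cs
    rw [map_smul, map_add]
    rcases lt_or_gt_of_ne hij with h | h
    · have h6 := mj_lt m0 h
      rw [F1_ch m0 hm0 i _ (by omega) (by omega), F1_ch m0 hm0 i _ (by omega) (by omega)]
      simp
    · have h6 := mj_lt m0 h
      rw [F1_ch m0 hm0 i _ (by omega) (by omega), F1_ch m0 hm0 i _ (by omega) (by omega)]
      simp

lemma F1_PP (m0 : ℕ) (hm0 : 2 ≤ m0) (a : ℝ) (i L : ℕ) : F1 m0 hm0 i (PP m0 a L)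
    = if i < L then ((a : ℂ) * Complex.I) * ((1 / 2 : ℂ) * ((GG (mj m0 i)).re : ℂ)) else 0 := by
  induction L with
  | zero =>
    have h : PP m0 a 0 = ch 0 := by rw [ch_zero]; rfl
    have hgi := mj_ge m0 i
    rw [h, F1_ch m0 hm0 i 0 (by omega) (by omega)]
    simp
  | succ L ih =>
    rw [PP_succ, map_add, map_add, map_smul, map_smul, F1_mixed, F1_cs, ih]
    simp only [smul_eq_mul, mul_zero, add_zero]
    by_cases h1 : i < L
    · have h2 : i ≠ L := h1.ne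
      have h3 : i < L + 1 := by omega
      simp [h1, h2, h3]
    · by_cases h2 : i = L
      · have h3 : i < L + 1 := by omega
        simp [h1, h2]
      · have h3 : ¬ (i < L + 1) := by omega
        simp [h1, h2, h3]

lemma cs_apply (n : ℤ) (θ : ℝ) : cs n θ = ((Real.cos (n * θ) : ℝ) : ℂ) := by
  unfold cs
  rw [BoundedContinuousFunction.smul_apply, BoundedContinuousFunction.add_apply, ch_apply,
    ch_apply, Complex.ofReal_cos, Complex.cos, smul_eq_mul]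
  push_cast
  have h1 : (n : ℂ) * (θ * Complex.I) = n * θ * Complex.I := by ring
  have h2 : -(n : ℂ) * (θ * Complex.I) = -(n * θ) * Complex.I := by ring
  rw [h1, h2]
  ring

lemma PP_sq (m0 : ℕ) (a : ℝ) (L : ℕ) (θ : ℝ) : ‖PP m0 a L θ‖ ^ 2 ≤ (1 + a ^ 2) ^ L := by
  induction L with
  | zero =>
    have h : PP m0 a 0 = 1 := rfl
    rw [h]
    simp
  | succ L ih =>
    have h : PP m0 a (L + 1)
        = PP m0 a L * (1 + ((a : ℂ) * Complex.I) • cs (2 * (mj m0 L : ℤ))) := rfl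
    rw [h, BoundedContinuousFunction.mul_apply, BoundedContinuousFunction.add_apply,
      BoundedContinuousFunction.smul_apply, cs_apply, norm_mul, mul_pow, pow_succ]
    set c := Real.cos (((2 * (mj m0 L : ℤ) : ℤ) : ℝ) * θ) with hc
    have h1 : ‖(1 : EB) θ + ((a : ℂ) * Complex.I) • ((c : ℝ) : ℂ)‖ ^ 2 = 1 + a ^ 2 * c ^ 2 := by
      rw [← Complex.normSq_eq_norm_sq, Complex.normSq_apply]
      simp
      ring
    rw [h1]
    have h2 : c ^ 2 ≤ 1 := by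
      rw [sq_le_one_iff_abs_le_one]
      exact Real.abs_cos_le_one _
    have h3 : 1 + a ^ 2 * c ^ 2 ≤ 1 + a ^ 2 := by nlinarith [sq_nonneg a]
    have h4 : 0 ≤ 1 + a ^ 2 * c ^ 2 := by positivity
    have h5 : 0 ≤ (1 + a ^ 2) ^ L := by positivity
    exact mul_le_mul ih h3 h4 h5

end Pool.Agent.Y499.RK
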