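import Pool.Agent.Y499.RK.Fun

/-!
The functional on bounded continuous angular functions, and its symmetry under rotations.
-/

set_option autoImplicit false
open MeasureTheory Filter Topology Metric

namespace Pool.Agent.Y499.RK

/-- the Banach space of angular functions -/
abbrev EB := BoundedContinuousFunction ℝ ℂ

/-- characters -/
noncomputable def ch (ν : ℤ) : EB := BoundedContinuousFunction.ofNormedAddCommGroup
  (fun θ : ℝ => Complex.exp (ν * (θ * Complex.I))) (by fun_prop) 1 (by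
    intro θ
    have : (ν : ℂ) * (θ * Complex.I) = ((ν * θ : ℝ) : ℂ) * Complex.I := by push_cast; ring
    rw [this, Complex.norm_exp_ofReal_mul_I])

lemma ch_apply (ν : ℤ) (θ : ℝ) : ch ν θ = Complex.exp (ν * (θ * Complex.I)) := rfl

lemma ch_mul (μ ν : ℤ) : ch μ * ch ν = ch (μ + ν) := by
  ext θ
  rw [BoundedContinuousFunction.mul_apply, ch_apply, ch_apply, ch_apply, ← Complex.exp_add]
  congr 1
  push_cast
  ring

lemma ch_zero : ch 0 = 1 := by
  ext θ
  rw [ch_apply]
  simp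

lemma norm_div_norm {w : ℂ} (hw : w ≠ 0) : ‖w / (‖w‖ : ℂ)‖ = 1 := by
  rw [norm_div, Complex.norm_real, norm_norm, div_self (norm_ne_zero_iff.2 hw)]

lemma ch_arg (ν : ℤ) {w : ℂ} (hw : w ≠ 0) : ch ν (Complex.arg w) = (w / (‖w‖ : ℂ)) ^ ν := by
  rw [ch_apply, Complex.exp_int_mul]
  congr 1
  have h1 := Complex.norm_mul_exp_arg_mul_I w
  have h2 : (‖w‖ : ℂ) ≠ 0 := by
    rw [Complex.ofReal_ne_zero]
    exact norm_ne_zero_iff.2 hw
  rw [eq_div_iff h2, mul_comm]
  exact h1

/-- the complex weight on the product -/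
noncomputable def wtc (b : ℂ → ℂ) (p : ℂ × ℂ) : ℂ :=
  (phi p.1 : ℂ) * b p.2 / ((‖p.1 - p.2‖ ^ 2 : ℝ) : ℂ)

/-- admissible complex densities -/
structure AdmC (b : ℂ → ℂ) : Prop where
  meas : Measurable b
  int : Integrable b
  van : ∀ x, ‖x‖ < 2 → b x = 0

lemma wtc_norm (b : ℂ → ℂ) (p : ℂ × ℂ) : ‖wtc b p‖ = |wt (fun z => ‖b z‖) p| := by
  unfold wtc wt
  rw [norm_div, norm_mul, Complex.norm_real, Complex.norm_real, abs_div, abs_mul, Real.norm_eq_abs,
    Real.norm_eq_abs, abs_of_nonneg (norm_nonneg (b p.2))]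

lemma wtc_meas {b : ℂ → ℂ} (hb : Measurable b) : Measurable (wtc b) :=
  ((Complex.measurable_ofReal.comp (phi_meas.comp measurable_fst)).mul
    (hb.comp measurable_snd)).div
    (Complex.measurable_ofReal.comp ((measurable_fst.sub measurable_snd).norm.pow_const 2))

lemma wtc_int {b : ℂ → ℂ} (hb : AdmC b) : Integrable (wtc b) := by
  have h1 : Integrable (wt (fun z => ‖b z‖)) :=
    wt_int hb.meas.norm hb.int.norm (fun x hx => by rw [hb.van x hx, norm_zero])
  refine Integrable.mono' h1.abs (wtc_meas hb.meas).aestronglyMeasurable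
    (Eventually.of_forall fun p => ?_)
  rw [wtc_norm]

lemma arg_meas (Ω : EB) : Measurable (fun p : ℂ × ℂ => Ω (Complex.arg (p.1 - p.2))) :=
  Ω.continuous.measurable.comp (Complex.measurable_arg.comp (measurable_fst.sub measurable_snd))

lemma wtc_mul_int {b : ℂ → ℂ} (hb : AdmC b) (Ω : EB) :
    Integrable (fun p : ℂ × ℂ => wtc b p * Ω (Complex.arg (p.1 - p.2))) :=
  (wtc_int hb).mul_bdd (c := ‖Ω‖) (arg_meas Ω).aestronglyMeasurable
    (Eventually.of_forall fun p => Ω.norm_coe_le_norm _)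

/-- the functional -/
noncomputable def TT (b : ℂ → ℂ) (Ω : EB) : ℂ :=
  ∫ p : ℂ × ℂ, wtc b p * Ω (Complex.arg (p.1 - p.2))

/-- the functional as a continuous linear map -/
noncomputable def TL (b : ℂ → ℂ) (hb : AdmC b) : EB →L[ℂ] ℂ :=
  LinearMap.mkContinuous
    { toFun := TT b
      map_add' := by
        intro x y
        unfold TT
        rw [← integral_add (wtc_mul_int hb x) (wtc_mul_int hb y)]
        refine integral_congr_ae (Eventually.of_forall fun p => ?_)
        simp only [BoundedContinuousFunction.add_apply]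
        ring
      map_smul' := by
        intro c x
        unfold TT
        rw [RingHom.id_apply, smul_eq_mul, ← integral_const_mul]
        refine integral_congr_ae (Eventually.of_forall fun p => ?_)
        simp only [BoundedContinuousFunction.smul_apply, smul_eq_mul]
        ring }
    (∫ p, ‖wtc b p‖) (by
      intro x
      simp only [LinearMap.coe_mk, AddHom.coe_mk]
      unfold TT
      refine (norm_integral_le_integral_norm _).trans ?_
      rw [← integral_mul_const]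
      refine integral_mono_of_nonneg (Eventually.of_forall fun p => norm_nonneg _)
        ((wtc_int hb).norm.mul_const _) (Eventually.of_forall fun p => ?_)
      simp only [norm_mul]
      exact mul_le_mul_of_nonneg_left (x.norm_coe_le_norm _) (norm_nonneg _))

lemma TL_apply (b : ℂ → ℂ) (hb : AdmC b) (Ω : EB) : TL b hb Ω = TT b Ω := rfl

/-- rotation invariance of the product measure -/
lemma rot (c : ℂ) (hc : ‖c‖ = 1) (F : ℂ × ℂ → ℂ) :
    ∫ p : ℂ × ℂ, F (c * p.1, c * p.2) = ∫ p : ℂ × ℂ, F p := by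
  let a : Circle := ⟨c, by simpa [Submonoid.unitSphere] using hc⟩
  let r : ℂ ≃ₗᵢ[ℝ] ℂ := rotation a
  have hr : ∀ z, r z = c * z := fun z => rfl
  have h1 : MeasurePreserving (Prod.map r r) (volume : Measure (ℂ × ℂ)) volume := by
    rw [Measure.volume_eq_prod]
    exact r.measurePreserving.prod r.measurePreserving
  have h2 : MeasurableEmbedding (Prod.map r r) :=
    (r.toHomeomorph.toMeasurableEquiv.prodCongr r.toHomeomorph.toMeasurableEquiv).measurableEmbedding
  exact h1.integral_comp h2 F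

/-- the annuli -/
def ann (m : ℕ) : Set ℂ := {z | (m : ℝ) ≤ ‖z‖ ∧ ‖z‖ < 2 * m}

lemma ann_meas (m : ℕ) : MeasurableSet (ann m) :=
  (measurableSet_le measurable_const measurable_norm).inter
    (measurableSet_lt measurable_norm measurable_const)

/-- the densities with one frequency -/
noncomputable def bm (m : ℕ) (μ : ℤ) : ℂ → ℂ :=
  (ann m).indicator (fun z => (z / (‖z‖ : ℂ)) ^ μ)

lemma unit_meas : Measurable (fun z : ℂ => z / (‖z‖ : ℂ)) :=
  measurable_id.div (Complex.measurable_ofReal.comp measurable_norm)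

lemma bm_norm (m : ℕ) (hm : 2 ≤ m) (μ : ℤ) (z : ℂ) : ‖bm m μ z‖ ≤ 1 := by
  unfold bm
  by_cases hz : z ∈ ann m
  · rw [Set.indicator_of_mem hz, norm_zpow]
    have h0 : z ≠ 0 := by
      rintro rfl
      have h1 : (m : ℝ) ≤ ‖(0 : ℂ)‖ := hz.1
      rw [norm_zero] at h1
      have h2 : (2 : ℝ) ≤ m := by exact_mod_cast hm
      linarith
    rw [norm_div_norm h0, one_zpow]
  · rw [Set.indicator_of_notMem hz, norm_zero]
    norm_num

lemma bm_adm (m : ℕ) (hm : 2 ≤ m) (μ : ℤ) : AdmC (bm m μ) where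
  meas := (unit_meas.pow_const μ).indicator (ann_meas m)
  int := by
    have hmeas : Measurable (bm m μ) := (unit_meas.pow_const μ).indicator (ann_meas m)
    have h1 : Function.support (bm m μ) ⊆ closedBall 0 (2 * m) := by
      intro z hz
      have h2 : z ∈ ann m := by
        by_contra h
        exact hz (Set.indicator_of_notMem h _)
      simpa using h2.2.le
    refine (integrableOn_iff_integrable_of_support_subset h1).1 ?_
    exact Measure.integrableOn_of_bounded (M := 1) measure_closedBall_lt_top.ne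
      hmeas.aestronglyMeasurable (Eventually.of_forall fun z => bm_norm m hm μ z)
  van := by
    intro z hz
    refine Set.indicator_of_notMem (fun h => ?_) _
    have h1 : (m : ℝ) ≤ ‖z‖ := h.1
    have h2 : (2 : ℝ) ≤ m := by exact_mod_cast hm
    linarith

lemma TT_bm_zero (m : ℕ) (μ ν : ℤ) (h : μ + ν ≠ 0) : TT (bm m μ) (ch ν) = 0 := by
  have hn : ((μ + ν : ℤ) : ℂ) ≠ 0 := by exact_mod_cast h
  set c : ℂ := Complex.exp ((Real.pi / (μ + ν : ℤ) : ℝ) * Complex.I) with hc
  have hc1 : ‖c‖ = 1 := by rw [hc, Complex.norm_exp_ofReal_mul_I]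
  have hc0 : c ≠ 0 := by
    intro h0
    rw [h0, norm_zero] at hc1
    norm_num at hc1
  have hcp : c ^ (μ + ν) = -1 := by
    rw [hc, ← Complex.exp_int_mul]
    have : ((μ + ν : ℤ) : ℂ) * ((Real.pi / (μ + ν : ℤ) : ℝ) * Complex.I) = Real.pi * Complex.I := by
      push_cast
      push_cast at hn
      field_simp
    rw [this, Complex.exp_pi_mul_I]
  have hphi : ∀ x, phi (c * x) = phi x := by
    intro x
    unfold phi
    have hb : ∀ r k : ℝ, (ball (0 : ℂ) r).indicator (fun _ => k) (c * x)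
        = (ball (0 : ℂ) r).indicator (fun _ => k) x := by
      intro r k
      have h1 : c * x ∈ ball (0 : ℂ) r ↔ x ∈ ball (0 : ℂ) r := by
        simp [hc1]
      by_cases h2 : x ∈ ball (0 : ℂ) r
      · rw [Set.indicator_of_mem h2, Set.indicator_of_mem (h1.2 h2)]
      · rw [Set.indicator_of_notMem h2, Set.indicator_of_notMem (fun h3 => h2 (h1.1 h3))]
    rw [hb, hb]
  have hbm : ∀ z, bm m μ (c * z) = c ^ μ * bm m μ z := by
    intro z
    unfold bm
    have hz : c * z ∈ ann m ↔ z ∈ ann m := by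
      unfold ann
      rw [Set.mem_ofPred_eq, Set.mem_ofPred_eq, norm_mul, hc1, one_mul]
    by_cases h1 : z ∈ ann m
    · rw [Set.indicator_of_mem h1, Set.indicator_of_mem (hz.2 h1), norm_mul, hc1, one_mul,
        mul_div_assoc, mul_zpow]
    · rw [Set.indicator_of_notMem h1, Set.indicator_of_notMem (fun h2 => h1 (hz.1 h2)), mul_zero]
  have hch : ∀ w : ℂ, w ≠ 0 → ch ν (Complex.arg (c * w)) = c ^ ν * ch ν (Complex.arg w) := by
    intro w hw
    rw [ch_arg ν hw, ch_arg ν (mul_ne_zero hc0 hw), norm_mul, hc1, one_mul, mul_div_assoc, mul_zpow]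
  have h1 : TT (bm m μ) (ch ν) = c ^ (μ + ν) * TT (bm m μ) (ch ν) := by
    unfold TT
    conv_lhs => rw [← rot c hc1]
    rw [← integral_const_mul]
    refine integral_congr_ae (Eventually.of_forall fun p => ?_)
    simp only
    rcases eq_or_ne (p.1 - p.2) 0 with h0 | h0
    · have h2 : wtc (bm m μ) p = 0 := by
        unfold wtc
        rw [h0]
        simp
      have h3 : wtc (bm m μ) (c * p.1, c * p.2) = 0 := by
        unfold wtc
        simp only [← mul_sub, h0]
        simp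
      rw [h2, h3]
      ring
    · have h3 : wtc (bm m μ) (c * p.1, c * p.2) = c ^ μ * wtc (bm m μ) p := by
        unfold wtc
        simp only [← mul_sub, norm_mul, hc1, one_mul, hphi, hbm]
        ring
      rw [h3, ← mul_sub, hch _ h0, zpow_add₀ hc0]
      ring
  rw [hcp] at h1
  have h2 : (2 : ℂ) * TT (bm m μ) (ch ν) = 0 := by linear_combination h1
  simpa using h2

lemma conj_unit_zpow {z : ℂ} (hz : z ≠ 0) (μ : ℤ) :
    (starRingEnd ℂ) ((z / (‖z‖ : ℂ)) ^ μ) = (z / (‖z‖ : ℂ)) ^ (-μ) := by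
  rw [map_zpow₀, ← Complex.inv_eq_conj (norm_div_norm hz), inv_zpow, zpow_neg]

lemma ann_ne {m : ℕ} (hm : 2 ≤ m) {z : ℂ} (hz : z ∈ ann m) : z ≠ 0 := by
  rintro rfl
  have h1 : (m : ℝ) ≤ ‖(0 : ℂ)‖ := hz.1
  rw [norm_zero] at h1
  have h2 : (2 : ℝ) ≤ m := by exact_mod_cast hm
  linarith

lemma bm_conj (m : ℕ) (hm : 2 ≤ m) (μ : ℤ) (z : ℂ) :
    (starRingEnd ℂ) (bm m μ z) = bm m (-μ) z := by
  unfold bm
  by_cases hz : z ∈ ann m
  · rw [Set.indicator_of_mem hz, Set.indicator_of_mem hz]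
    exact conj_unit_zpow (ann_ne hm hz) μ
  · rw [Set.indicator_of_notMem hz, Set.indicator_of_notMem hz, map_zero]

lemma ch_conj (ν : ℤ) (θ : ℝ) : (starRingEnd ℂ) (ch ν θ) = ch (-ν) θ := by
  rw [ch_apply, ch_apply, ← Complex.exp_conj]
  congr 1
  simp

lemma TT_conj (m : ℕ) (hm : 2 ≤ m) (μ ν : ℤ) :
    TT (bm m (-μ)) (ch (-ν)) = (starRingEnd ℂ) (TT (bm m μ) (ch ν)) := by
  unfold TT
  rw [← integral_conj]
  refine integral_congr_ae (Eventually.of_forall fun p => ?_)
  simp only [map_mul, ch_conj]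
  congr 1
  unfold wtc
  rw [map_div₀, map_mul, Complex.conj_ofReal, Complex.conj_ofReal, bm_conj m hm]

/-- the real densities -/
noncomputable def fm (m : ℕ) : ℂ → ℝ :=
  (ann m).indicator (fun z => ((z / (‖z‖ : ℂ)) ^ (2 * m)).re)

lemma fm_eq (m : ℕ) (hm : 2 ≤ m) (z : ℂ) :
    ((fm m z : ℝ) : ℂ) = (1 / 2 : ℂ) * (bm m (2 * m) z + bm m (-(2 * m)) z) := by
  rw [← bm_conj m hm]
  unfold bm fm
  by_cases hz : z ∈ ann m
  · rw [Set.indicator_of_mem hz, Set.indicator_of_mem hz]
    have : ((z / (‖z‖ : ℂ)) ^ ((2 : ℤ) * (m : ℤ))) = (z / (‖z‖ : ℂ)) ^ (2 * m) := by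
      norm_cast
    rw [this, Complex.re_eq_add_conj]
    ring
  · rw [Set.indicator_of_notMem hz, Set.indicator_of_notMem hz]
    simp

lemma fm_admC (m : ℕ) (hm : 2 ≤ m) : AdmC (fun z => ((fm m z : ℝ) : ℂ)) := by
  have h : (fun z => ((fm m z : ℝ) : ℂ))
      = fun z => (1 / 2 : ℂ) * (bm m (2 * m) z + bm m (-(2 * m)) z) := funext (fm_eq m hm)
  rw [h]
  have h1 := bm_adm m hm (2 * m)
  have h2 := bm_adm m hm (-(2 * m))
  exact ⟨(h1.meas.add h2.meas).const_mul _, (h1.int.add h2.int).const_mul _,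
    fun x hx => by rw [h1.van x hx, h2.van x hx]; simp⟩

lemma TT_fm (m : ℕ) (hm : 2 ≤ m) (Ω : EB) :
    TT (fun z => ((fm m z : ℝ) : ℂ)) Ω
      = (1 / 2 : ℂ) * (TT (bm m (2 * m)) Ω + TT (bm m (-(2 * m))) Ω) := by
  unfold TT
  rw [← integral_add (wtc_mul_int (bm_adm m hm _) Ω) (wtc_mul_int (bm_adm m hm _) Ω),
    ← integral_const_mul]
  refine integral_congr_ae (Eventually.of_forall fun p => ?_)
  simp only [wtc, fm_eq m hm]
  ring

lemma TT_fm_ch (m : ℕ) (hm : 2 ≤ m) (ν : ℤ) (h1 : ν ≠ 2 * m) (h2 : ν ≠ -(2 * m)) :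
    TT (fun z => ((fm m z : ℝ) : ℂ)) (ch ν) = 0 := by
  rw [TT_fm m hm, TT_bm_zero m _ _ (by omega), TT_bm_zero m _ _ (by omega)]
  simp

/-- the main coefficient -/
noncomputable def GG (m : ℕ) : ℂ := TT (bm m (-(2 * m))) (ch (2 * m))

/-- the cosines -/
noncomputable def cs (n : ℤ) : EB := (1 / 2 : ℂ) • (ch n + ch (-n))

lemma TT_fm_cs (m : ℕ) (hm : 2 ≤ m) :
    TL (fun z => ((fm m z : ℝ) : ℂ)) (fm_admC m hm) (cs (2 * m)) = (1 / 2 : ℂ) * ((GG m).re : ℂ) := by
  unfold cs
  rw [map_smul, map_add, TL_apply, TL_apply, TT_fm m hm, TT_fm m hm, smul_eq_mul,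
    TT_bm_zero m (2 * m) (2 * m) (by omega), TT_bm_zero m (-(2 * m)) (-(2 * m)) (by omega)]
  have h1 : TT (bm m (2 * m)) (ch (-(2 * m))) = (starRingEnd ℂ) (GG m) := by
    have := TT_conj m hm (-(2 * m)) (2 * m)
    rw [neg_neg] at this
    exact this
  rw [h1]
  have h2 : TT (bm m (-(2 * m))) (ch (2 * m)) = GG m := rfl
  rw [h2, Complex.re_eq_add_conj]
  ring

end Pool.Agent.Y499.RK
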