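import Mathlib

/-!
Transport of the question about rough homogeneous kernels from the Euclidean plane to the complex
numbers.
-/

set_option autoImplicit false
open MeasureTheory Filter Topology Metric

namespace Pool.Agent.Y499.RK

/-- the assertion of the problem in the plane (bounded kernels, unit ball), on the complex numbers -/
def HC : Prop := ∀ κ : ℂ → ℝ, Measurable κ →
  (∀ x : ℂ, x ≠ 0 → ∀ t : ℝ, 0 < t → κ (t • x) = t ^ (-(2 : ℤ)) * κ x) →
  (∃ B : ℝ, ∀ x : ℂ, 1 ≤ ‖x‖ → |κ x| ≤ B) →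
  (∫ x in {x : ℂ | 1 ≤ ‖x‖ ∧ ‖x‖ ≤ 2}, κ x) = 0 →
  ∃ C : ℝ, ∀ f : ℂ → ℝ, Measurable f → HasCompactSupport f → (∀ x, |f x| ≤ 1) →
    ∀ g : ℂ → ℝ, (∀ᵐ x ∂(volume : Measure ℂ),
      Tendsto (fun ε : ℝ => ∫ y in {y : ℂ | ε < ‖y‖}, κ y * f (x - y)) (𝓝[>] 0) (𝓝 (g x))) →
    IntegrableOn g (ball 0 1) volume ∧
      (⨍ x in ball (0 : ℂ) 1, |g x - ⨍ y in ball (0 : ℂ) 1, g y|) ≤ C

/-- the assertion of the problem -/
def HE : Prop := ∀ (n : ℕ), 1 ≤ n →
    ∀ (k : EuclideanSpace ℝ (Fin n) → ℝ), Measurable k →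
    (∀ x : EuclideanSpace ℝ (Fin n), x ≠ 0 → ∀ t : ℝ, 0 < t →
        k (t • x) = t ^ (-(n : ℤ)) * k x) →
    IntegrableOn k {x : EuclideanSpace ℝ (Fin n) | 1 ≤ ‖x‖ ∧ ‖x‖ ≤ 2} volume →
    (∫ x in {x : EuclideanSpace ℝ (Fin n) | 1 ≤ ‖x‖ ∧ ‖x‖ ≤ 2}, k x) = 0 →
    IntegrableOn (fun x => |k x| * max 0 (Real.log |k x|))
        {x : EuclideanSpace ℝ (Fin n) | 1 ≤ ‖x‖ ∧ ‖x‖ ≤ 2} volume →
    ∃ C : ℝ, ∀ (f : EuclideanSpace ℝ (Fin n) → ℝ) (M : ℝ),
      Measurable f → HasCompactSupport f → (∀ x, |f x| ≤ M) →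
      ∀ g : EuclideanSpace ℝ (Fin n) → ℝ,
        (∀ᵐ x ∂(volume : Measure (EuclideanSpace ℝ (Fin n))),
          Tendsto (fun ε : ℝ => ∫ y in {y : EuclideanSpace ℝ (Fin n) | ε < ‖y‖}, k y * f (x - y))
            (𝓝[>] 0) (𝓝 (g x))) →
        ∀ (c : EuclideanSpace ℝ (Fin n)) (r : ℝ), 0 < r →
          IntegrableOn g (ball c r) volume ∧
          (⨍ x in ball c r, |g x - ⨍ y in ball c r, g y|) ≤ C * M

/-- the isometry -/
noncomputable def ee : ℂ ≃ₗᵢ[ℝ] EuclideanSpace ℝ (Fin 2) := Complex.orthonormalBasisOneI.repr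

lemma ee_mp : MeasurePreserving (ee : ℂ → EuclideanSpace ℝ (Fin 2)) := ee.measurePreserving
lemma ee_symm_mp : MeasurePreserving (ee.symm : EuclideanSpace ℝ (Fin 2) → ℂ) :=
  ee.symm.measurePreserving
lemma ee_emb : MeasurableEmbedding (ee : ℂ → EuclideanSpace ℝ (Fin 2)) :=
  ee.toHomeomorph.measurableEmbedding
lemma ee_symm_emb : MeasurableEmbedding (ee.symm : EuclideanSpace ℝ (Fin 2) → ℂ) :=
  ee.symm.toHomeomorph.measurableEmbedding

lemma setInt_symm (s : Set ℂ) (h : ℂ → ℝ) :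
    ∫ x in {x : EuclideanSpace ℝ (Fin 2) | ee.symm x ∈ s}, h (ee.symm x) = ∫ x in s, h x :=
  ee_symm_mp.setIntegral_preimage_emb ee_symm_emb h s

lemma avg_symm (s : Set ℂ) (hs : MeasurableSet s) (h : ℂ → ℝ) :
    ⨍ x in {x : EuclideanSpace ℝ (Fin 2) | ee.symm x ∈ s}, h (ee.symm x) = ⨍ x in s, h x := by
  rw [setAverage_eq, setAverage_eq, setInt_symm]
  congr 2
  have : {x : EuclideanSpace ℝ (Fin 2) | ee.symm x ∈ s} = ee.symm ⁻¹' s := rfl
  rw [this, measureReal_def, ee_symm_mp.measure_preimage hs.nullMeasurableSet, measureReal_def]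

lemma ball_symm : {x : EuclideanSpace ℝ (Fin 2) | ee.symm x ∈ ball (0 : ℂ) 1} = ball 0 1 := by
  ext x
  simp

/-- the problem's assertion implies its planar version on the complex numbers -/
theorem hc_of_he (H : HE) : HC := by
  intro κ hκm hκh hκb hκ0
  obtain ⟨B, hB⟩ := hκb
  have hB0 : 0 ≤ B := le_trans (abs_nonneg _) (hB 1 (by simp))
  have hset : ∀ {P : ℝ → Prop}, {x : EuclideanSpace ℝ (Fin 2) | P ‖x‖}
      = {x : EuclideanSpace ℝ (Fin 2) | ee.symm x ∈ {z : ℂ | P ‖z‖}} := by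
    intro P
    ext x
    simp
  have hms : MeasurableSet {x : EuclideanSpace ℝ (Fin 2) | 1 ≤ ‖x‖ ∧ ‖x‖ ≤ 2} :=
    (measurableSet_le measurable_const measurable_norm).inter
      (measurableSet_le measurable_norm measurable_const)
  have hfin : volume {x : EuclideanSpace ℝ (Fin 2) | 1 ≤ ‖x‖ ∧ ‖x‖ ≤ 2} < ⊤ := by
    refine lt_of_le_of_lt (measure_mono (?_ : _ ⊆ closedBall (0 : EuclideanSpace ℝ (Fin 2)) 2))
      measure_closedBall_lt_top
    intro x hx
    simpa using hx.2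
  have hkm : Measurable (fun x : EuclideanSpace ℝ (Fin 2) => κ (ee.symm x)) :=
    hκm.comp ee.symm.continuous.measurable
  obtain ⟨C, hC⟩ := H 2 (by norm_num) (fun x => κ (ee.symm x)) hkm
    (by
      intro x hx t ht
      have h1 : ee.symm x ≠ 0 := by simpa using hx
      have h2 := hκh (ee.symm x) h1 t ht
      rw [map_smul, h2]
      norm_num)
    (by
      refine Measure.integrableOn_of_bounded (M := B) hfin.ne hkm.aestronglyMeasurable ?_
      refine (ae_restrict_iff' hms).2 (Eventually.of_forall fun x hx => ?_)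
      rw [Real.norm_eq_abs]
      exact hB _ (by simpa using hx.1))
    (by
      rw [hset (P := fun r => 1 ≤ r ∧ r ≤ 2), setInt_symm]
      exact hκ0)
    (by
      refine Measure.integrableOn_of_bounded (M := B * B) hfin.ne
        ((hkm.abs.mul (measurable_const.max
          (Real.measurable_log.comp hkm.abs))).aestronglyMeasurable) ?_
      refine (ae_restrict_iff' hms).2 (Eventually.of_forall fun x hx => ?_)
      have h1 : |κ (ee.symm x)| ≤ B := hB _ (by simpa using hx.1)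
      have h0 : 0 ≤ |κ (ee.symm x)| := abs_nonneg _
      have h2 : max 0 (Real.log |κ (ee.symm x)|) ≤ B :=
        max_le hB0 ((Real.log_le_self h0).trans h1)
      have h3 : 0 ≤ max 0 (Real.log |κ (ee.symm x)|) := le_max_left _ _
      rw [Real.norm_eq_abs, abs_of_nonneg (mul_nonneg h0 h3)]
      exact mul_le_mul h1 h2 h3 hB0)
  refine ⟨C, fun f hfm hfc hfb g hg => ?_⟩
  obtain ⟨h1, h2⟩ := hC (fun x => f (ee.symm x)) 1 (hfm.comp ee.symm.continuous.measurable)
    (hfc.comp_homeomorph ee.symm.toHomeomorph) (fun x => hfb _) (fun x => g (ee.symm x))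
    (by
      have h3 := ee_symm_mp.quasiMeasurePreserving.ae hg
      filter_upwards [h3] with x hx
      refine hx.congr fun ε => ?_
      rw [hset (P := fun r => ε < r),
        ← setInt_symm {z : ℂ | ε < ‖z‖} (fun y => κ y * f (ee.symm x - y))]
      refine setIntegral_congr_fun ?_ fun y _ => ?_
      · exact ee.symm.continuous.measurable
          (measurableSet_lt measurable_const measurable_norm)
      · simp only [map_sub])
    0 1 one_pos
  refine ⟨?_, ?_⟩
  · rw [← ball_symm] at h1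
    exact (ee_symm_mp.integrableOn_comp_preimage ee_symm_emb).1 h1
  · rw [← ball_symm] at h2
    rw [avg_symm _ measurableSet_ball g] at h2
    rw [avg_symm _ measurableSet_ball (fun y => |g y - ⨍ z in ball (0 : ℂ) 1, g z|)] at h2
    linarith

end Pool.Agent.Y499.RK
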